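import Pool.Agent.N613.ET.Basic

namespace Pool.Agent.N613.ET2

open Relation Classical Pool.Agent.N613.ET

noncomputable section

/-- States of the clock. -/
inductive Clk (H : Type) : Type
  | q : Clk H
  | p (h : H) : Clk H
  | r : Clk H
  | s : Clk H
  | e : Clk H
  | fin : Clk H

/-- Letters of the new system: carriers `x`, `w`, `z`, a dead letter `d`, and control letters. -/
inductive Lt (H S : Type) : Type
  | x (c : S) : Lt H S
  | w (c : S) : Lt H S
  | z (c : S) : Lt H S
  | d : Lt H S
  | clk (v : Clk H) : Lt H S
  | gx (c : S) : Lt H S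
  | gw (c : S) : Lt H S
  | oa (h : H) (c : S) : Lt H S
  | ob (c : S) : Lt H S
  | oe (c : S) : Lt H S

/-- Names of the right hand sides. -/
inductive Act (H S : Type) : Type
  | fill (v : Clk H) : Act H S
  | sub (h : H) (c : S) : Act H S
  | toX (c : S) : Act H S
  | toZ (c : S) : Act H S
  | clks : Act H S
  | nil : Act H S

section
variable {H S : Type}

instance [Finite H] : Finite (Clk H) := by
  let φ : Clk H → Option (H ⊕ Fin 4) := fun v => match v with
    | .q => none
    | .p h => some (Sum.inl h)
    | .r => some (Sum.inr 0)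
    | .s => some (Sum.inr 1)
    | .e => some (Sum.inr 2)
    | .fin => some (Sum.inr 3)
  refine Finite.of_injective φ ?_
  intro u v huv
  cases u <;> cases v <;> simp_all [φ]

instance [Finite H] [Finite S] : Finite (Lt H S) := by
  let φ : Lt H S → Option (((H × S) ⊕ Clk H) ⊕ (Fin 7 × S)) := fun v => match v with
    | .x c => some (Sum.inr (0, c))
    | .w c => some (Sum.inr (1, c))
    | .z c => some (Sum.inr (2, c))
    | .d => none
    | .clk v => some (Sum.inl (Sum.inr v))
    | .gx c => some (Sum.inr (3, c))
    | .gw c => some (Sum.inr (4, c))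
    | .oa h c => some (Sum.inl (Sum.inl (h, c)))
    | .ob c => some (Sum.inr (5, c))
    | .oe c => some (Sum.inr (6, c))
  refine Finite.of_injective φ ?_
  intro u v huv
  cases u <;> cases v <;> simp_all [φ]

instance [Finite H] [Finite S] : Finite (Act H S) := by
  let φ : Act H S → Option ((H × S) ⊕ (Option (Clk H) ⊕ (Fin 2 × S))) := fun v => match v with
    | .fill v => some (Sum.inr (Sum.inl (some v)))
    | .sub h c => some (Sum.inl (h, c))
    | .toX c => some (Sum.inr (Sum.inr (0, c)))
    | .toZ c => some (Sum.inr (Sum.inr (1, c)))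
    | .clks => some (Sum.inr (Sum.inl none))
    | .nil => none
  refine Finite.of_injective φ ?_
  intro u v huv
  cases u <;> cases v <;> simp_all [φ]

/-- The control letters. -/
def Ctr : Lt H S → Prop
  | .x _ => False
  | .w _ => False
  | .z _ => False
  | .d => False
  | _ => True

/-- The control letters that may be absent in the state `v` of the clock. -/
def hole : Clk H → Lt H S → Prop
  | .q, .clk .q => True
  | .q, .gx _ => True
  | .p h, .clk (.p h') => h = h'
  | .p _, .gx _ => True
  | .p _, .gw _ => True
  | .p h, .oa h' _ => h = h'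
  | .r, .clk .r => True
  | .r, .gw _ => True
  | .s, .clk .s => True
  | .s, .gx _ => True
  | .s, .gw _ => True
  | .s, .ob _ => True
  | .e, .clk .e => True
  | .e, .gx _ => True
  | .e, .oe _ => True
  | .fin, .clk .fin => True
  | _, _ => False

theorem hole_clk (u v : Clk H) : hole u (.clk v : Lt H S) ↔ u = v := by
  cases u <;> cases v <;> simp [hole]

/-- The moves of the clock. -/
inductive Edge : Clk H → Clk H → Prop
  | qp (h : H) : Edge .q (.p h)
  | pr (h : H) : Edge (.p h) .r
  | rs : Edge .r .s
  | sq : Edge .s .q
  | qe : Edge .q .e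
  | ef : Edge .e .fin

theorem Edge.ne {u v : Clk H} (h : Edge u v) : u ≠ v := by
  cases h <;> simp

/-- The admissible tables: the letter `p` is rewritten as told by `k`, and the letter `g` is
rewritten into the dead letter. -/
inductive Ok : Lt H S → Act H S → Lt H S → Prop
  | mv (u v : Clk H) (h : Edge u v) : Ok (.clk v) (.fill v) (.clk u)
  | tx (v : Clk H) (c : S) (h : hole v (.gx c : Lt H S)) : Ok (.gx c) (.fill v) (.x c)
  | tw (v : Clk H) (c : S) (h : hole v (.gw c : Lt H S)) : Ok (.gw c) (.fill v) (.w c)
  | pa (h : H) (c : S) : Ok (.oa h c) (.fill (.p h)) (.gx c)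
  | pb (c : S) : Ok (.ob c) (.fill .s) (.gw c)
  | pe (c : S) : Ok (.oe c) (.fill .e) (.gx c)
  | aa (h : H) (c : S) : Ok (.x c) (.sub h c) (.oa h c)
  | ab (c : S) : Ok (.w c) (.toX c) (.ob c)
  | ae (c : S) : Ok (.x c) (.toZ c) (.oe c)
  | kgx (c : S) : Ok (.gx c) .clks (.x c)
  | koa (h : H) (c : S) : Ok (.oa h c) .clks (.x c)
  | koe (c : S) : Ok (.oe c) .clks (.x c)
  | kgw (c : S) : Ok (.gw c) .clks (.w c)
  | kob (c : S) : Ok (.ob c) .clks (.w c)
  | kc (v : Clk H) (h : v ≠ .fin) : Ok (.clk v) .nil (.clk .fin)

theorem Ok.ne {p g : Lt H S} {k : Act H S} (h : Ok p k g) : p ≠ g := by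
  cases h with
  | mv u v h => simpa using h.ne.symm
  | kc v h => simpa using h
  | _ => simp

/-- All letters as a list. -/
def allL [Finite H] [Finite S] : List (Lt H S) :=
  letI := Fintype.ofFinite (Lt H S)
  Finset.univ.toList

theorem mem_allL [Finite H] [Finite S] (l : Lt H S) : l ∈ (allL : List (Lt H S)) := by
  simp [allL]

/-- All control letters that must be present in the state `v` of the clock. -/
def fillL [Finite H] [Finite S] (v : Clk H) : List (Lt H S) :=
  allL.filter (fun l => Ctr l ∧ ¬ hole v l)

theorem mem_fillL [Finite H] [Finite S] (v : Clk H) (l : Lt H S) :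
    l ∈ (fillL v : List (Lt H S)) ↔ Ctr l ∧ ¬ hole v l := by
  simp [fillL, mem_allL]

/-- All clock letters but the final one. -/
def clkL [Finite H] [Finite S] : List (Lt H S) :=
  allL.filter (fun l => ∃ v : Clk H, v ≠ .fin ∧ l = .clk v)

theorem mem_clkL [Finite H] [Finite S] (l : Lt H S) :
    l ∈ (clkL : List (Lt H S)) ↔ ∃ v : Clk H, v ≠ .fin ∧ l = .clk v := by
  simp [clkL, mem_allL]

/-- The right hand sides. -/
def words [Finite H] [Finite S] (tab : H → S → Set (List S)) : Act H S → Set (List (Lt H S))
  | .fill v => {fillL v}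
  | .sub h c => (fun u => u.map Lt.w) '' tab h c
  | .toX c => {[.x c]}
  | .toZ c => {[.z c]}
  | .clks => {clkL}
  | .nil => {[]}

/-- Rewrite `p` by a word of `A` and `g` by the dead letter. -/
def rwt (p : Lt H S) (A : Set (List (Lt H S))) (g : Lt H S) : Lt H S → Set (List (Lt H S)) :=
  fun l => if l = p then A else if l = g then {[.d]} else {[l]}

/-- The tables. -/
def ntab [Finite H] [Finite S] (tab : H → S → Set (List S))
    (t : Lt H S × Act H S × Lt H S) : Lt H S → Set (List (Lt H S)) :=
  if Ok t.1 t.2.1 t.2.2 then rwt t.1 (words tab t.2.1) t.2.2 else fun l => {[l]}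

theorem ntab_restr [Finite H] [Finite S] (tab : H → S → Set (List S))
    (t : Lt H S × Act H S × Lt H S) : {l | ntab tab t l ≠ {[l]}}.encard ≤ (2 : ℕ) := by
  have : {l | ntab tab t l ≠ {[l]}} ⊆ ({t.1, t.2.2} : Set (Lt H S)) := by
    intro l hl
    by_contra hh
    simp only [Set.mem_insert_iff, Set.mem_singleton_iff, not_or] at hh
    refine hl ?_
    simp only [ntab]
    split_ifs
    · simp [rwt, hh.1, hh.2]
    · rfl
  refine (Set.encard_le_encard this).trans ?_
  refine (Set.encard_insert_le _ _).trans ?_
  rw [Set.encard_singleton]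
  norm_num

theorem words_finite [Finite H] [Finite S] {tab : H → S → Set (List S)}
    (ht : ∀ h c, (tab h c).Finite) (k : Act H S) : (words tab k).Finite := by
  cases k with
  | sub h c => exact (ht h c).image _
  | _ => exact Set.finite_singleton _

theorem words_nonempty [Finite H] [Finite S] {tab : H → S → Set (List S)}
    (ht : ∀ h c, (tab h c).Nonempty) (k : Act H S) : (words tab k).Nonempty := by
  cases k with
  | sub h c => exact (ht h c).image _
  | _ => exact Set.singleton_nonempty _

end

/-- The two-restricted system that simulates `G`. -/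
def sim {α : Type} (G : Sys α) : Sys α :=
  haveI := G.finS
  haveI := G.finH
  { S := Lt G.H G.S
    finS := inferInstance
    H := Lt G.H G.S × Act G.H G.S × Lt G.H G.S
    finH := inferInstance
    neH := ⟨(.d, .nil, .d)⟩
    tab := ntab G.tab
    tabFinite := by
      intro h c
      simp only [ntab]
      split_ifs
      · simp only [rwt]
        split_ifs
        · exact words_finite G.tabFinite _
        · exact Set.finite_singleton _
        · exact Set.finite_singleton _
      · exact Set.finite_singleton _
    tabNonempty := by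
      intro h c
      simp only [ntab]
      split_ifs
      · simp only [rwt]
        split_ifs
        · exact words_nonempty G.tabNonempty _
        · exact Set.singleton_nonempty _
        · exact Set.singleton_nonempty _
      · exact Set.singleton_nonempty _
    ax := G.ax.map Lt.x ++ fillL .q
    axNonempty := by
      intro h
      simp only [List.append_eq_nil_iff, List.map_eq_nil_iff] at h
      exact G.axNonempty h.1
    term := fun a => Lt.z (G.term a)
    termInj := by
      intro a b hab
      simp only [Lt.z.injEq] at hab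
      exact G.termInj hab }

end

end Pool.Agent.N613.ET2
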