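import Pool.Agent.N613.ET2.Step

namespace Pool.Agent.N613.ET2

open Relation Classical Pool.Agent.N613.ET

noncomputable section

section
variable {H S : Type} [Finite H] [Finite S]

/-- One step of the new system. -/
def NStep (tab : H → S → Set (List S)) (x y : List (Lt H S)) : Prop :=
  ∃ t, Sub (ntab tab t) x y

/-- The carriers `C` can be derived together with control letters, those of `M` being absent. -/
def Good (tab : H → S → Set (List S)) (A : List (Lt H S)) (C : List (Lt H S))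
    (M : Set (Lt H S)) : Prop :=
  ∃ K : List (Lt H S), (∀ l ∈ K, Ctr l) ∧ (∀ k ∈ M, k ∉ K) ∧
    ReflTransGen (NStep tab) A (C ++ K)

omit [Finite H] [Finite S] in
theorem sub_same {p g : Lt H S} {A : Set (List (Lt H S))} {C : List (Lt H S)} (hp : p ∉ C)
    (hg : g ∉ C) : Sub (rwt p A g) C C := by
  have := Sub.ofDet (f := rwt p A g) (g := fun l => [l]) (x := C) (fun c hc => by
    rw [rwt_o (by rintro rfl; exact hp hc) (by rintro rfl; exact hg hc)]
    rfl)
  simpa using this

theorem ntab_ok {tab : H → S → Set (List S)} {p g : Lt H S} {k : Act H S} (hk : Ok p k g) :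
    ntab tab (p, k, g) = rwt p (words tab k) g := by
  simp [ntab, hk]

theorem Good.mono {tab : H → S → Set (List S)} {A C : List (Lt H S)} {M M' : Set (Lt H S)}
    (h : Good tab A C M) (hM : ∀ k ∈ M', k ∈ M) : Good tab A C M' := by
  obtain ⟨K, h1, h2, h3⟩ := h
  exact ⟨K, h1, fun k hk => h2 k (hM k hk), h3⟩

/-- Rewriting a control letter. -/
theorem Good.ctl {tab : H → S → Set (List S)} {A C : List (Lt H S)} {M M' : Set (Lt H S)}
    (h : Good tab A C M) {p g : Lt H S} {k : Act H S} (hk : Ok p k g) (w : List (Lt H S))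
    (hw : w ∈ words tab k) (hwc : ∀ l ∈ w, Ctr l) (hpC : p ∉ C) (hgC : g ∉ C)
    (hg : ¬ Ctr g ∨ g ∈ M) (hM : ∀ l ∈ M', (l ∈ M ∨ l = p) ∧ l ∉ w) : Good tab A C M' := by
  obtain ⟨K, h1, h2, h3⟩ := h
  have hgK : g ∉ K := by
    intro hh
    rcases hg with hg | hg
    · exact hg (h1 g hh)
    · exact h2 g hg hh
  refine ⟨K.flatMap (fun l => if l = p then w else [l]), ?_, ?_, h3.tail ⟨(p, k, g), ?_⟩⟩
  · intro l hl
    obtain ⟨a, ha, hla⟩ := List.mem_flatMap.1 hl
    split_ifs at hla
    · exact hwc l hla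
    · simp only [List.mem_singleton] at hla
      rw [hla]; exact h1 a ha
  · intro l hl hlK
    obtain ⟨a, ha, hla⟩ := List.mem_flatMap.1 hlK
    split_ifs at hla with hap
    · exact (hM l hl).2 hla
    · simp only [List.mem_singleton] at hla
      subst hla
      rcases (hM l hl).1 with h4 | h4
      · exact h2 l h4 ha
      · exact hap h4
  · rw [ntab_ok hk]
    refine (sub_same hpC hgC).append (Sub.ofDet ?_)
    intro c hc
    by_cases hcp : c = p
    · subst hcp
      rw [rwt_p]; simpa using hw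
    · rw [rwt_o hcp (by rintro rfl; exact hgK hc)]
      simp [hcp]

/-- Operating on the carriers. -/
theorem Good.act {tab : H → S → Set (List S)} {A C C' : List (Lt H S)} {M : Set (Lt H S)}
    (h : Good tab A C M) {p g : Lt H S} {k : Act H S} (hk : Ok p k g)
    (hp : ¬ Ctr p) (hg : g ∈ M) (hs : Sub (rwt p (words tab k) g) C C') : Good tab A C' M := by
  obtain ⟨K, h1, h2, h3⟩ := h
  refine ⟨K, h1, h2, h3.tail ⟨(p, k, g), ?_⟩⟩
  rw [ntab_ok hk]
  exact hs.append (sub_same (fun hh => hp (h1 _ hh)) (h2 g hg))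

theorem Good.fill {tab : H → S → Set (List S)} {A C : List (Lt H S)} {M M' : Set (Lt H S)}
    (h : Good tab A C M) {p g : Lt H S} {v : Clk H} (hk : Ok p (.fill v) g)
    (hpC : p ∉ C) (hgC : g ∉ C) (hg : ¬ Ctr g ∨ g ∈ M)
    (hM : ∀ l ∈ M', (l ∈ M ∨ l = p) ∧ hole v l) : Good tab A C M' :=
  h.ctl hk (fillL v) rfl (fun l hl => ((mem_fillL v l).1 hl).1) hpC hgC hg
    (fun l hl => ⟨(hM l hl).1, fun hh => ((mem_fillL v l).1 hh).2 (hM l hl).2⟩)

omit [Finite H] [Finite S] in
theorem notmem_map {f : S → Lt H S} {y : List S} {l : Lt H S} (h : ∀ a, l ≠ f a) :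
    l ∉ y.map f := by
  intro hh
  obtain ⟨a, _, ha⟩ := List.mem_map.1 hh
  exact h a ha.symm

/-- A finite set containing everything. -/
theorem exists_all (T : Type) [Finite T] : ∃ F : Finset T, ∀ c, c ∈ F :=
  ⟨(Set.toFinite Set.univ).toFinset, by simp⟩

def M0 : Set (Lt H S) := {l | l = .clk .q ∨ ∃ c, l = .gx c}

def Mp (h : H) (P Q : Set S) : Set (Lt H S) :=
  {l | l = .clk (.p h) ∨ (∃ c, l = .gx c) ∨ (∃ c ∈ P, l = .gw c) ∨ ∃ c ∈ Q, l = .oa h c}

def Mr : Set (Lt H S) := {l | l = .clk .r ∨ ∃ c, l = .gw c}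

def Ms (P Q : Set S) : Set (Lt H S) :=
  {l | l = .clk .s ∨ (∃ c, l = .gw c) ∨ (∃ c ∈ P, l = .gx c) ∨ ∃ c ∈ Q, l = .ob c}

def Me (Q : Set S) : Set (Lt H S) :=
  {l | l = .clk .e ∨ (∃ c, l = .gx c) ∨ ∃ c ∈ Q, l = .oe c}

variable {tab : H → S → Set (List S)} {A : List (Lt H S)}

theorem good_p1 {y : List S} {h : H} (hG : Good tab A (y.map .x) M0) (P : Finset S) :
    Good tab A (y.map .x) (Mp h P ∅) := by
  induction P using Finset.induction_on with
  | empty =>
    refine hG.fill (Ok.mv .q (.p h) (Edge.qp h)) (notmem_map (by simp)) (notmem_map (by simp))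
      (Or.inr (Or.inl rfl)) ?_
    rintro l (rfl | ⟨c, rfl⟩ | ⟨c, hc, rfl⟩ | ⟨c, hc, rfl⟩)
    · exact ⟨Or.inr rfl, rfl⟩
    · exact ⟨Or.inl (Or.inr ⟨c, rfl⟩), trivial⟩
    · simp at hc
    · simp at hc
  | insert c P hc ih =>
    refine ih.fill (Ok.tw (.p h) c trivial) (notmem_map (by simp)) (notmem_map (by simp))
      (Or.inl (by simp [Ctr])) ?_
    rintro l (rfl | ⟨a, rfl⟩ | ⟨a, ha, rfl⟩ | ⟨a, ha, rfl⟩)
    · exact ⟨Or.inl (Or.inl rfl), rfl⟩
    · exact ⟨Or.inl (Or.inr (Or.inl ⟨a, rfl⟩)), trivial⟩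
    · refine ⟨?_, trivial⟩
      rcases Finset.mem_insert.1 (Finset.mem_coe.1 ha) with rfl | ha
      · exact Or.inr rfl
      · exact Or.inl (Or.inr (Or.inr (Or.inl ⟨a, ha, rfl⟩)))
    · simp at ha

theorem good_p2 {y : List S} {h : H} {F : Set S} (hG : Good tab A (y.map .x) (Mp h F ∅))
    (P : Finset S) : Good tab A (y.map .x) (Mp h F P) := by
  induction P using Finset.induction_on with
  | empty => simpa using hG
  | insert c P hc ih =>
    refine ih.fill (Ok.pa h c) (notmem_map (by simp)) (notmem_map (by simp))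
      (Or.inr (Or.inr (Or.inl ⟨c, rfl⟩))) ?_
    rintro l (rfl | ⟨a, rfl⟩ | ⟨a, ha, rfl⟩ | ⟨a, ha, rfl⟩)
    · exact ⟨Or.inl (Or.inl rfl), rfl⟩
    · exact ⟨Or.inl (Or.inr (Or.inl ⟨a, rfl⟩)), trivial⟩
    · exact ⟨Or.inl (Or.inr (Or.inr (Or.inl ⟨a, ha, rfl⟩))), trivial⟩
    · refine ⟨?_, rfl⟩
      rcases Finset.mem_insert.1 (Finset.mem_coe.1 ha) with rfl | ha
      · exact Or.inr rfl
      · exact Or.inl (Or.inr (Or.inr (Or.inr ⟨a, ha, rfl⟩)))

theorem Sub.flat {S T : Type} {f : S → Set (List S)} {g g' : T → List S} {z : List T}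
    (h : ∀ p ∈ z, Sub f (g p) (g' p)) : Sub f (z.flatMap g) (z.flatMap g') := by
  induction z with
  | nil => exact Sub.nil
  | cons a z ih =>
    rw [List.flatMap_cons, List.flatMap_cons]
    exact (h a (by simp)).append (ih fun p hp => h p (by simp [hp]))

theorem Sub.one {S : Type} {f : S → Set (List S)} {c : S} {u : List S} (h : u ∈ f c) :
    Sub f [c] u := by
  have := Sub.cons h Sub.nil
  simpa using this

theorem good_p3 {h : H} {zs : List (S × List S)} (hzs : ∀ p ∈ zs, p.2 ∈ tab h p.1)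
    {F Q : Set S} (hQ : ∀ c, c ∈ Q) (hG : Good tab A ((zs.map Prod.fst).map .x) (Mp h F Q))
    (P : Finset S) : Good tab A
      (zs.flatMap (fun p => if p.1 ∈ P then p.2.map Lt.w else [Lt.x p.1])) (Mp h F Q) := by
  induction P using Finset.induction_on with
  | empty =>
    have : (zs.flatMap (fun p => if p.1 ∈ (∅ : Finset S) then p.2.map Lt.w else [Lt.x p.1]) :
        List (Lt H S)) = (zs.map Prod.fst).map Lt.x := by
      clear hG hzs
      induction zs with
      | nil => simp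
      | cons a zs ih => simp at ih ⊢; exact ih
    rw [this]
    exact hG
  | insert c P hc ih =>
    refine ih.act (Ok.aa h c) (by simp [Ctr]) (Or.inr (Or.inr (Or.inr ⟨c, hQ c, rfl⟩)))
      (Sub.flat ?_)
    intro p hp
    by_cases hpP : p.1 ∈ P
    · simp only [hpP, if_true, Finset.mem_insert, or_true]
      refine Sub.ofMap ?_
      intro a _
      simp [rwt]
    · by_cases hpc : p.1 = c
      · simp only [hpc, Finset.mem_insert, true_or, if_true, hc, if_false]
        refine Sub.one ?_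
        rw [rwt_p]
        exact ⟨p.2, hpc ▸ hzs p hp, rfl⟩
      · simp only [hpP, hpc, Finset.mem_insert, or_false, if_false]
        refine Sub.one ?_
        simp [rwt, hpc]

theorem good_r {h : H} {y : List S} {F Q : Set S} (hF : ∀ c, c ∈ F)
    (hG : Good tab A (y.map .w) (Mp h F Q)) : Good tab A (y.map .w) Mr := by
  refine hG.fill (Ok.mv (.p h) .r (Edge.pr h)) (notmem_map (by simp)) (notmem_map (by simp))
    (Or.inr (Or.inl rfl)) ?_
  rintro l (rfl | ⟨c, rfl⟩)
  · exact ⟨Or.inr rfl, trivial⟩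
  · exact ⟨Or.inl (Or.inr (Or.inr (Or.inl ⟨c, hF c, rfl⟩))), trivial⟩

theorem good_s1 {y : List S} (hG : Good tab A (y.map .w) Mr) (P : Finset S) :
    Good tab A (y.map .w) (Ms P ∅) := by
  induction P using Finset.induction_on with
  | empty =>
    refine hG.fill (Ok.mv .r .s Edge.rs) (notmem_map (by simp)) (notmem_map (by simp))
      (Or.inr (Or.inl rfl)) ?_
    rintro l (rfl | ⟨c, rfl⟩ | ⟨c, hc, rfl⟩ | ⟨c, hc, rfl⟩)
    · exact ⟨Or.inr rfl, trivial⟩
    · exact ⟨Or.inl (Or.inr ⟨c, rfl⟩), trivial⟩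
    · simp at hc
    · simp at hc
  | insert c P hc ih =>
    refine ih.fill (Ok.tx .s c trivial) (notmem_map (by simp)) (notmem_map (by simp))
      (Or.inl (by simp [Ctr])) ?_
    rintro l (rfl | ⟨a, rfl⟩ | ⟨a, ha, rfl⟩ | ⟨a, ha, rfl⟩)
    · exact ⟨Or.inl (Or.inl rfl), trivial⟩
    · exact ⟨Or.inl (Or.inr (Or.inl ⟨a, rfl⟩)), trivial⟩
    · refine ⟨?_, trivial⟩
      rcases Finset.mem_insert.1 (Finset.mem_coe.1 ha) with rfl | ha
      · exact Or.inr rfl
      · exact Or.inl (Or.inr (Or.inr (Or.inl ⟨a, ha, rfl⟩)))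
    · simp at ha

theorem good_s2 {y : List S} {F : Set S} (hG : Good tab A (y.map .w) (Ms F ∅))
    (P : Finset S) : Good tab A (y.map .w) (Ms F P) := by
  induction P using Finset.induction_on with
  | empty => simpa using hG
  | insert c P hc ih =>
    refine ih.fill (Ok.pb c) (notmem_map (by simp)) (notmem_map (by simp))
      (Or.inr (Or.inr (Or.inl ⟨c, rfl⟩))) ?_
    rintro l (rfl | ⟨a, rfl⟩ | ⟨a, ha, rfl⟩ | ⟨a, ha, rfl⟩)
    · exact ⟨Or.inl (Or.inl rfl), trivial⟩
    · exact ⟨Or.inl (Or.inr (Or.inl ⟨a, rfl⟩)), trivial⟩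
    · exact ⟨Or.inl (Or.inr (Or.inr (Or.inl ⟨a, ha, rfl⟩))), trivial⟩
    · refine ⟨?_, trivial⟩
      rcases Finset.mem_insert.1 (Finset.mem_coe.1 ha) with rfl | ha
      · exact Or.inr rfl
      · exact Or.inl (Or.inr (Or.inr (Or.inr ⟨a, ha, rfl⟩)))

theorem good_s3 {y : List S} {F Q : Set S} (hQ : ∀ c, c ∈ Q)
    (hG : Good tab A (y.map .w) (Ms F Q)) (P : Finset S) :
    Good tab A (y.map (fun c => if c ∈ P then Lt.x c else Lt.w c)) (Ms F Q) := by
  induction P using Finset.induction_on with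
  | empty => simpa using hG
  | insert c P hc ih =>
    refine ih.act (Ok.ab c) (by simp [Ctr]) (Or.inr (Or.inr (Or.inr ⟨c, hQ c, rfl⟩)))
      (Sub.ofMap ?_)
    intro a _
    by_cases haP : a ∈ P
    · simp [haP, rwt]
    · by_cases hac : a = c
      · simp [hac, hc, rwt, words]
      · simp [haP, hac, rwt]

theorem good_q {y : List S} {F Q : Set S} (hF : ∀ c, c ∈ F)
    (hG : Good tab A (y.map .x) (Ms F Q)) : Good tab A (y.map .x) M0 := by
  refine hG.fill (Ok.mv .s .q Edge.sq) (notmem_map (by simp)) (notmem_map (by simp))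
    (Or.inr (Or.inl rfl)) ?_
  rintro l (rfl | ⟨c, rfl⟩)
  · exact ⟨Or.inr rfl, trivial⟩
  · exact ⟨Or.inl (Or.inr (Or.inr (Or.inl ⟨c, hF c, rfl⟩))), trivial⟩

/-- One step of the simulated system. -/
theorem good_step {h : H} {y y' : List S} (hG : Good tab A (y.map .x) M0)
    (hs : Sub (tab h) y y') : Good tab A (y'.map .x) M0 := by
  obtain ⟨F, hF⟩ := exists_all S
  obtain ⟨zs, h1, h2, h3⟩ := hs.toPairs
  have g2 := good_p2 (good_p1 (h := h) hG F) F
  rw [h2] at g2
  have g3 := good_p3 h1 (fun c => Finset.mem_coe.2 (hF c)) g2 F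
  have h5 : (zs.flatMap (fun p => if p.1 ∈ F then p.2.map Lt.w
      else [Lt.x p.1]) : List (Lt H S)) = y'.map Lt.w := by
    rw [h3, List.map_flatMap]
    simp [hF]
  rw [h5] at g3
  have g4 := good_s2 (good_s1 (good_r (fun c => Finset.mem_coe.2 (hF c)) g3) F) F
  have g5 := good_s3 (fun c => Finset.mem_coe.2 (hF c)) g4 F
  have h6 : (y'.map (fun c => if c ∈ F then Lt.x c else Lt.w c) : List (Lt H S)) =
      y'.map Lt.x := by simp [hF]
  rw [h6] at g5
  exact good_q (fun c => Finset.mem_coe.2 (hF c)) g5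

theorem good_e1 {y : List S} (hG : Good tab A (y.map .x) M0) (P : Finset S) :
    Good tab A (y.map .x) (Me P) := by
  induction P using Finset.induction_on with
  | empty =>
    refine hG.fill (Ok.mv .q .e Edge.qe) (notmem_map (by simp)) (notmem_map (by simp))
      (Or.inr (Or.inl rfl)) ?_
    rintro l (rfl | ⟨c, rfl⟩ | ⟨c, hc, rfl⟩)
    · exact ⟨Or.inr rfl, trivial⟩
    · exact ⟨Or.inl (Or.inr ⟨c, rfl⟩), trivial⟩
    · simp at hc
  | insert c P hc ih =>
    refine ih.fill (Ok.pe c) (notmem_map (by simp)) (notmem_map (by simp))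
      (Or.inr (Or.inr (Or.inl ⟨c, rfl⟩))) ?_
    rintro l (rfl | ⟨a, rfl⟩ | ⟨a, ha, rfl⟩)
    · exact ⟨Or.inl (Or.inl rfl), trivial⟩
    · exact ⟨Or.inl (Or.inr (Or.inl ⟨a, rfl⟩)), trivial⟩
    · refine ⟨?_, trivial⟩
      rcases Finset.mem_insert.1 (Finset.mem_coe.1 ha) with rfl | ha
      · exact Or.inr rfl
      · exact Or.inl (Or.inr (Or.inr ⟨a, ha, rfl⟩))

theorem good_e2 {y : List S} {Q : Set S} (hQ : ∀ c, c ∈ Q)
    (hG : Good tab A (y.map .x) (Me Q)) (P : Finset S) :
    Good tab A (y.map (fun c => if c ∈ P then Lt.z c else Lt.x c)) (Me Q) := by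
  induction P using Finset.induction_on with
  | empty => simpa using hG
  | insert c P hc ih =>
    refine ih.act (Ok.ae c) (by simp [Ctr]) (Or.inr (Or.inr ⟨c, hQ c, rfl⟩))
      (Sub.ofMap ?_)
    intro a _
    by_cases haP : a ∈ P
    · simp [haP, rwt]
    · by_cases hac : a = c
      · simp [hac, hc, rwt, words]
      · simp [haP, hac, rwt]

theorem good_fin {y : List S} {Q : Set S} (hG : Good tab A (y.map .z) (Me Q)) :
    Good tab A (y.map .z) {l | l = .clk .fin} := by
  refine hG.fill (Ok.mv .e .fin Edge.ef) (notmem_map (by simp)) (notmem_map (by simp))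
    (Or.inr (Or.inl rfl)) ?_
  rintro l rfl
  exact ⟨Or.inr rfl, trivial⟩

/-- The gates. -/
def Gate : Lt H S → Prop
  | .gx _ => True
  | .gw _ => True
  | .oa _ _ => True
  | .ob _ => True
  | .oe _ => True
  | _ => False

omit [Finite H] [Finite S] in
theorem gate_ok {p : Lt H S} (hp : Gate p) :
    ∃ g, Ok p .clks g ∧ ((∃ c, g = .x c) ∨ ∃ c, g = .w c) := by
  cases p with
  | gx c => exact ⟨.x c, Ok.kgx c, Or.inl ⟨c, rfl⟩⟩
  | gw c => exact ⟨.w c, Ok.kgw c, Or.inr ⟨c, rfl⟩⟩
  | oa h c => exact ⟨.x c, Ok.koa h c, Or.inl ⟨c, rfl⟩⟩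
  | ob c => exact ⟨.w c, Ok.kob c, Or.inr ⟨c, rfl⟩⟩
  | oe c => exact ⟨.x c, Ok.koe c, Or.inl ⟨c, rfl⟩⟩
  | x c => exact hp.elim
  | w c => exact hp.elim
  | z c => exact hp.elim
  | d => exact hp.elim
  | clk v => exact hp.elim

theorem good_gates {y : List S} (hG : Good tab A (y.map .z) {l | l = .clk .fin})
    (P : Finset (Lt H S)) : Good tab A (y.map .z) {l | l = .clk .fin ∨ (Gate l ∧ l ∈ P)} := by
  induction P using Finset.induction_on with
  | empty => simpa using hG
  | insert p P hc ih =>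
    by_cases hp : Gate p
    · obtain ⟨g, hk, hg⟩ := gate_ok hp
      refine ih.ctl hk clkL rfl ?_ ?_ ?_ ?_ ?_
      · intro l hl
        obtain ⟨v, _, rfl⟩ := (mem_clkL l).1 hl
        simp [Ctr]
      · refine notmem_map ?_
        intro a ha
        rw [ha] at hp
        exact hp.elim
      · rcases hg with ⟨c, rfl⟩ | ⟨c, rfl⟩
        · exact notmem_map (by simp)
        · exact notmem_map (by simp)
      · rcases hg with ⟨c, rfl⟩ | ⟨c, rfl⟩
        · exact Or.inl (by simp [Ctr])
        · exact Or.inl (by simp [Ctr])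
      · rintro l (rfl | ⟨h1, h2⟩)
        · refine ⟨Or.inl (Or.inl rfl), ?_⟩
          intro hh
          obtain ⟨v, hv, hv'⟩ := (mem_clkL _).1 hh
          simp only [Lt.clk.injEq] at hv'
          exact hv hv'.symm
        · refine ⟨?_, ?_⟩
          · rcases Finset.mem_insert.1 h2 with rfl | h2
            · exact Or.inr rfl
            · exact Or.inl (Or.inr ⟨h1, h2⟩)
          · intro hh
            obtain ⟨v, hv, rfl⟩ := (mem_clkL _).1 hh
            exact h1.elim
    · refine ih.mono ?_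
      rintro l (h | ⟨h1, h2⟩)
      · exact Or.inl h
      · rcases Finset.mem_insert.1 h2 with rfl | h2
        · exact absurd h1 hp
        · exact Or.inr ⟨h1, h2⟩

theorem good_clks {y : List S} (hG : Good tab A (y.map .z) {l | l = .clk .fin ∨ Gate l})
    (P : Finset (Clk H)) :
    Good tab A (y.map .z) {l | l = .clk .fin ∨ Gate l ∨ ∃ v ∈ P, l = .clk v} := by
  induction P using Finset.induction_on with
  | empty => simpa using hG
  | insert v P hc ih =>
    by_cases hv : v = .fin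
    · refine ih.mono ?_
      rintro l (h | h | ⟨u, hu, rfl⟩)
      · exact Or.inl h
      · exact Or.inr (Or.inl h)
      · rcases Finset.mem_insert.1 hu with rfl | hu
        · exact Or.inl (by rw [hv])
        · exact Or.inr (Or.inr ⟨u, hu, rfl⟩)
    · refine ih.ctl (Ok.kc v hv) [] rfl (by simp) (notmem_map (by simp)) (notmem_map (by simp))
        (Or.inr (Or.inl rfl)) ?_
      rintro l (h | h | ⟨u, hu, rfl⟩)
      · exact ⟨Or.inl (Or.inl h), by simp⟩
      · exact ⟨Or.inl (Or.inr (Or.inl h)), by simp⟩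
      · rcases Finset.mem_insert.1 hu with rfl | hu
        · exact ⟨Or.inr rfl, by simp⟩
        · exact ⟨Or.inl (Or.inr (Or.inr ⟨u, hu, rfl⟩)), by simp⟩

theorem good_end {y : List S} (hG : Good tab A (y.map .x) M0) :
    ReflTransGen (NStep tab) A (y.map .z) := by
  obtain ⟨F, hF⟩ := exists_all S
  obtain ⟨F', hF'⟩ := exists_all (Lt H S)
  obtain ⟨F'', hF''⟩ := exists_all (Clk H)
  have g2 := good_e2 (fun c => Finset.mem_coe.2 (hF c)) (good_e1 hG F) F
  have h6 : (y.map (fun c => if c ∈ F then Lt.z c else Lt.x c) : List (Lt H S)) =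
      y.map Lt.z := by simp [hF]
  rw [h6] at g2
  have g3 := good_gates (good_fin g2) F'
  have g4 : Good tab A (y.map .z) {l | l = .clk .fin ∨ Gate l} := g3.mono (by
    rintro l (h | h)
    · exact Or.inl h
    · exact Or.inr ⟨h, hF' l⟩)
  obtain ⟨K, h1, h2, h3⟩ := good_clks g4 F''
  have hK : K = [] := by
    cases K with
    | nil => rfl
    | cons a K =>
      exfalso
      have ha := h1 a (by simp)
      have ha' : a ∈ {l : Lt H S | l = .clk .fin ∨ Gate l ∨ ∃ v ∈ F'', l = .clk v} := by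
        cases a with
        | clk v => exact Or.inr (Or.inr ⟨v, hF'' v, rfl⟩)
        | gx c => exact Or.inr (Or.inl trivial)
        | gw c => exact Or.inr (Or.inl trivial)
        | oa h c => exact Or.inr (Or.inl trivial)
        | ob c => exact Or.inr (Or.inl trivial)
        | oe c => exact Or.inr (Or.inl trivial)
        | x c => exact ha.elim
        | w c => exact ha.elim
        | z c => exact ha.elim
        | d => exact ha.elim
      exact h2 a ha' (by simp)
  rw [hK] at h3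
  simpa using h3

theorem good_reach {a y : List S} (hG : Good tab A (a.map .x) M0)
    (hr : ReflTransGen (fun x y => ∃ h, Sub (tab h) x y) a y) : Good tab A (y.map .x) M0 := by
  induction hr with
  | refl => exact hG
  | tail _ h ih =>
    obtain ⟨h, hs⟩ := h
    exact good_step ih hs

theorem inv_reach (ht : ∀ h c, (tab h c).Nonempty)
    {R : List S → Prop} (hR : ∀ z z' h, R z → Sub (tab h) z z' → R z')
    {W : List (Lt H S)} (hI : Inv tab R A) (hr : ReflTransGen (NStep tab) A W) :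
    Inv tab R W := by
  induction hr with
  | refl => exact hI
  | tail _ h ih =>
    obtain ⟨p, hs⟩ := h
    exact Inv.step ht hR ih hs

end

/-- The new system generates the same language. -/
theorem sim_lang {α : Type} (G : Sys α) : lang (sim G) = lang G := by
  have := G.finS
  have := G.finH
  ext w
  have key : w ∈ lang (sim G) ↔ ReflTransGen (NStep G.tab)
      (G.ax.map Lt.x ++ fillL (.q : Clk G.H)) ((w.map G.term).map Lt.z) := by
    rw [List.map_map]
    exact Iff.rfl
  rw [key]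
  constructor
  · intro h
    refine Inv.final (tab := G.tab) (R := fun z => ReflTransGen (Step G) G.ax z)
      (inv_reach G.tabNonempty ?_ ?_ h)
    · intro z z' h hz hs
      exact hz.tail ⟨h, hs⟩
    · refine Or.inr (Or.inl ⟨.q, G.ax, _, _, rfl, by simp, ReflTransGen.refl, rfl, ?_, ?_⟩)
      · intro l hl
        exact NC_of_Ctr ((mem_fillL _ l).1 hl).1
      · intro l h1 h2
        exact (mem_fillL _ l).2 ⟨h1, h2⟩
  · intro h
    refine good_end (good_reach (a := G.ax) ?_ h)
    refine ⟨fillL .q, fun l hl => ((mem_fillL _ l).1 hl).1, ?_, ReflTransGen.refl⟩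
    rintro k (rfl | ⟨c, rfl⟩) hk
    · exact ((mem_fillL _ _).1 hk).2 trivial
    · exact ((mem_fillL _ _).1 hk).2 trivial

theorem sim_restr {α : Type} (G : Sys α) : Restr 2 (sim G) := by
  intro h
  have := G.finS
  have := G.finH
  exact ntab_restr G.tab h

end

end Pool.Agent.N613.ET2
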