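import Pool.Agent.N613.ET.Sound

/-!
The language of the words `a ^ n b ^ n c ^ n` is generated by a two-restricted ET0L system but by no
one-restricted one.
-/

namespace Pool.Agent.N613.ET2

open Relation Classical Pool.Agent.N613.ET

/-! Derivations along a list of tables -/

section
variable {H S : Type} (tab : H → S → Set (List S))

/-- `D τ x y`: the tables of the list `τ`, applied one after the other, rewrite `x` into `y`. -/
def D : List H → List S → List S → Prop
  | [], x, y => x = y
  | h :: τ, x, y => ∃ x', Sub (tab h) x x' ∧ D τ x' y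

variable {tab}

theorem D_append {τ : List H} {x₁ x₂ y₁ y₂ : List S} (h₁ : D tab τ x₁ y₁) (h₂ : D tab τ x₂ y₂) :
    D tab τ (x₁ ++ x₂) (y₁ ++ y₂) := by
  induction τ generalizing x₁ x₂ with
  | nil =>
    have h₁ : x₁ = y₁ := h₁
    have h₂ : x₂ = y₂ := h₂
    subst h₁ h₂
    rfl
  | cons h τ ih =>
    obtain ⟨x₁', a₁, b₁⟩ := h₁
    obtain ⟨x₂', a₂, b₂⟩ := h₂
    exact ⟨x₁' ++ x₂', a₁.append a₂, ih b₁ b₂⟩

theorem D_split {τ : List H} {x₁ x₂ y : List S} (h : D tab τ (x₁ ++ x₂) y) :
    ∃ y₁ y₂, y = y₁ ++ y₂ ∧ D tab τ x₁ y₁ ∧ D tab τ x₂ y₂ := by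
  induction τ generalizing x₁ x₂ with
  | nil =>
    have h : x₁ ++ x₂ = y := h
    exact ⟨x₁, x₂, h.symm, rfl, rfl⟩
  | cons h' τ ih =>
    obtain ⟨x', a, b⟩ := h
    obtain ⟨z₁, z₂, rfl, c₁, c₂⟩ := a.split
    obtain ⟨y₁, y₂, rfl, d₁, d₂⟩ := ih b
    exact ⟨y₁, y₂, rfl, ⟨z₁, c₁, d₁⟩, ⟨z₂, c₂, d₂⟩⟩

theorem D_nil {τ : List H} {y : List S} (h : D tab τ [] y) : y = [] := by
  induction τ with
  | nil => exact (show [] = y from h).symm
  | cons h' τ ih =>
    obtain ⟨x', a, b⟩ := h
    cases a
    exact ih b

theorem D_nil' (τ : List H) : D tab τ [] [] := by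
  induction τ with
  | nil => rfl
  | cons h' τ ih => exact ⟨[], Sub.nil, ih⟩

theorem D_comp {τ₁ τ₂ : List H} {x y z : List S} (h₁ : D tab τ₁ x y) (h₂ : D tab τ₂ y z) :
    D tab (τ₁ ++ τ₂) x z := by
  induction τ₁ generalizing x with
  | nil =>
    have h₁ : x = y := h₁
    subst h₁
    exact h₂
  | cons h τ ih =>
    obtain ⟨x', a, b⟩ := h₁
    exact ⟨x', a, ih b⟩

theorem D_decomp {τ₁ τ₂ : List H} {x z : List S} (h : D tab (τ₁ ++ τ₂) x z) :
    ∃ y, D tab τ₁ x y ∧ D tab τ₂ y z := by
  induction τ₁ generalizing x with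
  | nil => exact ⟨x, rfl, h⟩
  | cons h' τ ih =>
    obtain ⟨x', a, b⟩ := h
    obtain ⟨y, c, d⟩ := ih b
    exact ⟨y, ⟨x', a, c⟩, d⟩

theorem D_of_reach {x y : List S} (h : ReflTransGen (fun x y => ∃ h, Sub (tab h) x y) x y) :
    ∃ τ, D tab τ x y := by
  induction h using ReflTransGen.head_induction_on with
  | refl => exact ⟨[], rfl⟩
  | head h' _ ih =>
    obtain ⟨h, hs⟩ := h'
    obtain ⟨τ, hτ⟩ := ih
    exact ⟨h :: τ, _, hs, hτ⟩

theorem reach_of_D {τ : List H} {x y : List S} (h : D tab τ x y) :
    ReflTransGen (fun x y => ∃ h, Sub (tab h) x y) x y := by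
  induction τ generalizing x with
  | nil =>
    have h : x = y := h
    subst h
    exact ReflTransGen.refl
  | cons h' τ ih =>
    obtain ⟨x', a, b⟩ := h
    exact ReflTransGen.head ⟨h', a⟩ (ih b)

theorem sub_length {f : S → Set (List S)} {B : ℕ} (hB : ∀ c, ∀ u ∈ f c, u.length ≤ B)
    {x y : List S} (h : Sub f x y) : y.length ≤ B * x.length := by
  induction h with
  | nil => simp
  | @cons c u x y hu _ ih =>
    have := hB c u hu
    simp only [List.length_append, List.length_cons]
    rw [Nat.mul_add, Nat.mul_one]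
    omega

theorem D_length {B : ℕ} (hB : ∀ h c, ∀ u ∈ tab h c, u.length ≤ B) {τ : List H}
    {x y : List S} (h : D tab τ x y) : y.length ≤ B ^ τ.length * x.length := by
  induction τ generalizing x with
  | nil =>
    have h : x = y := h
    subst h
    simp
  | cons h' τ ih =>
    obtain ⟨x', a, b⟩ := h
    have h1 := ih b
    have h2 := sub_length (hB h') a
    rw [List.length_cons, pow_succ, mul_assoc]
    exact h1.trans (Nat.mul_le_mul_left _ h2)

end

/-! The words -/

/-- The word `0 ^ n 1 ^ n 2 ^ n`. -/
def wd (n : ℕ) : List (Fin 3) := List.replicate n 0 ++ List.replicate n 1 ++ List.replicate n 2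

theorem wd_sorted (n : ℕ) : (wd n).Pairwise (· ≤ ·) := by
  unfold wd
  rw [List.pairwise_append, List.pairwise_append]
  refine ⟨⟨?_, ?_, ?_⟩, ?_, ?_⟩
  · exact List.pairwise_replicate.2 (Or.inr le_rfl)
  · exact List.pairwise_replicate.2 (Or.inr le_rfl)
  · intro a ha b hb
    rw [List.eq_of_mem_replicate ha]
    exact Fin.zero_le _
  · exact List.pairwise_replicate.2 (Or.inr le_rfl)
  · intro a ha b hb
    rw [List.eq_of_mem_replicate hb]
    exact Fin.le_last _

theorem wd_count (n : ℕ) (e : Fin 3) : (wd n).count e = n := by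
  unfold wd
  rw [List.count_append, List.count_append, List.count_replicate, List.count_replicate,
    List.count_replicate]
  fin_cases e <;> simp

theorem factor {m : ℕ} {s f t : List (Fin 3)} (h : s ++ f ++ t = wd m) (h0 : 0 ∈ f)
    (h2 : 2 ∈ f) : m ≤ f.length := by
  have hs := wd_sorted m
  rw [← h, List.pairwise_append, List.pairwise_append] at hs
  obtain ⟨⟨_, _, h3⟩, _, h4⟩ := hs
  have c1 : s.count 1 = 0 := by
    rw [List.count_eq_zero]
    intro hh
    have := h3 1 hh 0 h0
    exact absurd this (by decide)
  have c2 : t.count 1 = 0 := by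
    rw [List.count_eq_zero]
    intro hh
    have := h4 2 (by simp [h2]) 1 hh
    exact absurd this (by decide)
  have c3 := wd_count m 1
  rw [← h, List.count_append, List.count_append, c1, c2] at c3
  have := List.count_le_length (a := (1 : Fin 3)) (l := f)
  omega

/-! The lower bound -/

section
variable {G : Sys (Fin 3)}

/-- The terminal words derived from the letter `c` by the tables `τ`. -/
def T (G : Sys (Fin 3)) (c : G.S) (τ : List G.H) : Set (List (Fin 3)) :=
  {u | D G.tab τ [c] (u.map G.term)}

theorem split_map {y₁ y₂ : List G.S} {w : List (Fin 3)} (h : w.map G.term = y₁ ++ y₂) :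
    ∃ w₁ w₂, w = w₁ ++ w₂ ∧ w₁.map G.term = y₁ ∧ w₂.map G.term = y₂ := by
  obtain ⟨w₁, w₂, h1, h2, h3⟩ := List.map_eq_append_iff.1 h
  exact ⟨w₁, w₂, h1, h2, h3⟩

theorem active (hG : Restr 1 G) (h : G.H) : ∃ p : G.S, ∀ c, c ≠ p → G.tab h c = {[c]} := by
  have h1 := hG h
  rw [Nat.cast_one, Set.encard_le_one_iff] at h1
  by_cases hh : ∃ p, G.tab h p ≠ {[p]}
  · obtain ⟨p, hp⟩ := hh
    refine ⟨p, fun c hc => ?_⟩
    by_contra h2
    exact hc (h1 c p h2 hp)
  · push Not at hh
    obtain ⟨p, hp⟩ := List.exists_mem_of_ne_nil _ G.axNonempty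
    exact ⟨p, fun c _ => hh c⟩

theorem D_tail {h : G.H} {c : G.S} {τ : List G.H} {y : List G.S} (hc : G.tab h c = {[c]})
    (hd : D G.tab (h :: τ) [c] y) : D G.tab τ [c] y := by
  obtain ⟨x', a, b⟩ := hd
  have := a.single
  rw [hc, Set.mem_singleton_iff] at this
  rw [this] at b
  exact b

theorem D_head {h : G.H} {c : G.S} {τ : List G.H} {y : List G.S} (hc : G.tab h c = {[c]})
    (hd : D G.tab τ [c] y) : D G.tab (h :: τ) [c] y := by
  refine ⟨[c], ?_, hd⟩
  have := Sub.cons (f := G.tab h) (c := c) (u := [c]) (x := []) (y := []) (by rw [hc]; rfl) Sub.nil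
  simpa using this

/-- Skip the table `h`, replacing the contributions `f` of `p` by `u`. -/
theorem skip {h : G.H} {p : G.S} (hp : ∀ c, c ≠ p → G.tab h c = {[c]}) {τ : List G.H}
    {f u : List (Fin 3)} (hf : ∀ v ∈ T G p (h :: τ), v = f) (hu : u ∈ T G p τ) (x : List G.S) :
    ∀ w : List (Fin 3), D G.tab (h :: τ) x (w.map G.term) →
    ∃ w' : List (Fin 3), D G.tab τ x (w'.map G.term) ∧
      (∀ e, w'.count e + x.count p * f.count e = w.count e + x.count p * u.count e) ∧
      (p ∈ x → ∃ s t, s ++ u ++ t = w') ∧ (u = f → w' = w) := by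
  induction x with
  | nil =>
    intro w hw
    have := D_nil hw
    rw [List.map_eq_nil_iff] at this
    subst this
    exact ⟨[], D_nil' _, by simp, by simp, fun _ => rfl⟩
  | cons c x ih =>
    intro w hw
    have hw' : D G.tab (h :: τ) ([c] ++ x) (w.map G.term) := hw
    obtain ⟨y₁, y₂, e, d₁, d₂⟩ := D_split hw'
    obtain ⟨w₁, w₂, rfl, rfl, rfl⟩ := split_map e
    obtain ⟨w₂', k1, k2, k3, k4⟩ := ih w₂ d₂
    by_cases hc : c = p
    · subst hc
      have hw₁ : w₁ = f := hf w₁ d₁
      subst hw₁
      refine ⟨u ++ w₂', ?_, ?_, ?_, ?_⟩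
      · rw [List.map_append]
        exact D_append hu k1
      · intro e
        have := k2 e
        rw [List.count_append, List.count_append, List.count_cons_self]
        ring_nf at this ⊢
        omega
      · intro _
        exact ⟨[], w₂', by simp⟩
      · intro huf
        rw [huf, k4 huf]
    · refine ⟨w₁ ++ w₂', ?_, ?_, ?_, ?_⟩
      · rw [List.map_append]
        exact D_append (x₁ := [c]) (D_tail (hp c hc) d₁) k1
      · intro e
        have := k2 e
        rw [List.count_append, List.count_append, List.count_cons_of_ne hc]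
        omega
      · intro hpx
        rcases List.mem_cons.1 hpx with h' | h'
        · exact absurd h'.symm hc
        · obtain ⟨s, t, hst⟩ := k3 h'
          exact ⟨w₁ ++ s, t, by rw [← hst]; simp⟩
      · intro huf
        rw [k4 huf]

/-- If the table `h` does not change the letters of `x`, it can be left out. -/
theorem D_drop {h : G.H} {τ : List G.H} {x y : List G.S} (hx : ∀ c ∈ x, G.tab h c = {[c]})
    (hd : D G.tab (h :: τ) x y) : D G.tab τ x y := by
  obtain ⟨x', a, b⟩ := hd
  have h1 : x' = x.flatMap (fun c => [c]) := a.det hx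
  have h2 : x' = x := by simpa using h1
  rw [h2] at b
  exact b

theorem exists_bound (G : Sys (Fin 3)) :
    ∃ B : ℕ, 0 < B ∧ ∀ h c, ∀ u ∈ G.tab h c, u.length ≤ B := by
  have := G.finS
  have := G.finH
  have hf : (⋃ h, ⋃ c, G.tab h c).Finite :=
    Set.finite_iUnion fun h => Set.finite_iUnion fun c => G.tabFinite h c
  obtain ⟨B, hB⟩ := (hf.image List.length).bddAbove
  refine ⟨B + 1, Nat.succ_pos _, fun h c u hu => ?_⟩
  have : u.length ≤ B := hB ⟨u, Set.mem_iUnion.2 ⟨h, Set.mem_iUnion.2 ⟨c, hu⟩⟩, rfl⟩
  omega

theorem lower (hG : Restr 1 G) (hL : lang G = {w | ∃ n, w = wd n}) : False := by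
  have := G.finS
  have := G.finH
  obtain ⟨B, hB0, hB⟩ := exists_bound G
  set N := Nat.card G.S with hN
  set n := B ^ (N + 1) * G.ax.length + B ^ (N + 1) + 1 with hn
  have mem : ∀ (τ : List G.H) (w : List (Fin 3)), D G.tab τ G.ax (w.map G.term) →
      ∃ m, w = wd m := by
    intro τ w hw
    have : w ∈ lang G := reach_of_D hw
    rw [hL] at this
    exact this
  -- a shortest derivation
  have hex : ∃ k, ∃ τ : List G.H, τ.length = k ∧ D G.tab τ G.ax ((wd n).map G.term) := by
    have : wd n ∈ lang G := by rw [hL]; exact ⟨n, rfl⟩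
    obtain ⟨τ, hτ⟩ := D_of_reach this
    exact ⟨_, τ, rfl, hτ⟩
  obtain ⟨τ, hτl, hτ⟩ := Nat.find_spec hex
  have hmin : ∀ τ' : List G.H, D G.tab τ' G.ax ((wd n).map G.term) → τ.length ≤ τ'.length := by
    intro τ' h'
    rw [hτl]
    exact Nat.find_min' hex ⟨τ', rfl, h'⟩
  let V : List G.H → Set G.S := fun τ₂ => {c | (T G c τ₂).Nonempty}
  have hV : ∀ τ₂, (V τ₂).ncard ≤ N := fun τ₂ => by
    rw [hN, ← Set.ncard_univ]
    exact Set.ncard_le_ncard (Set.subset_univ _) (Set.toFinite _)
  have claim : ∀ τ₂ τ₁ : List G.H, τ = τ₁ ++ τ₂ → τ₂.length ≤ (V τ₂).ncard := by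
    intro τ₂
    induction τ₂ with
    | nil => intro _ _; simp
    | cons h τ₃ ih =>
      intro τ₁ hτ₁
      have ih' := ih (τ₁ ++ [h]) (by rw [hτ₁]; simp)
      have hlen : τ₃.length ≤ N := ih'.trans (hV _)
      obtain ⟨p, hp⟩ := active hG h
      rw [hτ₁] at hτ
      obtain ⟨x, hx1, hx2⟩ := D_decomp hτ
      have hpx : p ∈ x := by
        by_contra hpx
        have h3 : D G.tab τ₃ x ((wd n).map G.term) :=
          D_drop (fun c hc => hp c (by rintro rfl; exact hpx hc)) hx2
        have h4 := hmin _ (D_comp hx1 h3)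
        rw [hτ₁] at h4
        simp at h4
      obtain ⟨x₁, x₂, rfl⟩ := List.append_of_mem hpx
      have hx3 : D G.tab (h :: τ₃) (x₁ ++ ([p] ++ x₂)) ((wd n).map G.term) := by simpa using hx2
      obtain ⟨y₁, y', e1, d1, d'⟩ := D_split hx3
      obtain ⟨y₂, y₃, rfl, d2, d3⟩ := D_split d'
      obtain ⟨w₁, w', e2, rfl, e3⟩ := split_map e1
      obtain ⟨f, w₂, rfl, rfl, rfl⟩ := split_map e3
      have hpow : ∀ v : List (Fin 3), v ∈ T G p (h :: τ₃) → v.length < n := by
        intro v hv
        have h5 := D_length hB hv
        simp only [List.length_map, List.length_cons, List.length_nil, zero_add, mul_one] at h5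
        have h6 : B ^ (τ₃.length + 1) ≤ B ^ (N + 1) := Nat.pow_le_pow_right hB0 (by omega)
        omega
      have hpow' : ∀ v : List (Fin 3), v ∈ T G p τ₃ → v.length < n := by
        intro v hv
        have h5 := D_length hB hv
        simp only [List.length_map, List.length_cons, List.length_nil, zero_add, mul_one] at h5
        have h6 : B ^ τ₃.length ≤ B ^ (N + 1) := Nat.pow_le_pow_right hB0 (by omega)
        omega
      have hf : f ∈ T G p (h :: τ₃) := d2
      -- all contributions of `p` are equal
      have h7 : ∀ v ∈ T G p (h :: τ₃), v = f := by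
        intro v hv
        have h8 : D G.tab (h :: τ₃) (x₁ ++ ([p] ++ x₂)) ((w₁ ++ (v ++ w₂)).map G.term) := by
          rw [List.map_append, List.map_append]
          exact D_append d1 (D_append hv d3)
        have h9 : D G.tab (τ₁ ++ (h :: τ₃)) G.ax ((w₁ ++ (v ++ w₂)).map G.term) :=
          D_comp hx1 (by simpa using h8)
        obtain ⟨m, hm⟩ := mem _ _ h9
        have hc : ∀ e, m + f.count e = n + v.count e := by
          intro e
          have a1 := wd_count m e
          have a2 := wd_count n e
          rw [← hm] at a1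
          rw [e2] at a2
          simp only [List.count_append] at a1 a2
          omega
        rcases lt_trichotomy m n with hmn | hmn | hmn
        · exfalso
          have b0 : 0 ∈ f := List.count_pos_iff.1 (by have := hc 0; omega)
          have b2 : 2 ∈ f := List.count_pos_iff.1 (by have := hc 2; omega)
          have := factor (s := w₁) (t := w₂) (by rw [e2]; simp) b0 b2
          have := hpow f hf
          omega
        · rw [hmn, e2] at hm
          have := List.append_cancel_left hm
          exact List.append_cancel_right this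
        · exfalso
          have b0 : 0 ∈ v := List.count_pos_iff.1 (by have := hc 0; omega)
          have b2 : 2 ∈ v := List.count_pos_iff.1 (by have := hc 2; omega)
          have := factor (s := w₁) (t := w₂) (by rw [← hm]; simp) b0 b2
          have := hpow v hv
          omega
      -- `p` is dead after the step
      have h10 : p ∉ V τ₃ := by
        rintro ⟨u, hu⟩
        obtain ⟨w', k1, k2, k3, k4⟩ := skip hp h7 hu _ _ hx2
        have k5 : D G.tab (τ₁ ++ τ₃) G.ax (w'.map G.term) := D_comp hx1 k1
        obtain ⟨m, hm⟩ := mem _ _ k5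
        obtain ⟨s, t, hst⟩ := k3 hpx
        set r := (x₁ ++ p :: x₂).count p with hr
        have hr0 : 0 < r := List.count_pos_iff.2 hpx
        have hc : ∀ e, m + r * f.count e = n + r * u.count e := by
          intro e
          have a0 := k2 e
          have a1 := wd_count m e
          have a2 := wd_count n e
          rw [← hm] at a1
          omega
        rcases lt_trichotomy m n with hmn | hmn | hmn
        · have b : ∀ e, 0 < f.count e := by
            intro e
            by_contra hh
            have h0 : f.count e = 0 := by omega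
            have := hc e
            rw [h0] at this
            omega
          have := factor (s := w₁) (t := w₂) (by rw [e2]; simp) (List.count_pos_iff.1 (b 0))
            (List.count_pos_iff.1 (b 2))
          have := hpow f hf
          omega
        · rw [hm, hmn] at k5
          have := hmin _ k5
          rw [hτ₁] at this
          simp at this
        · have b : ∀ e, 0 < u.count e := by
            intro e
            by_contra hh
            have h0 : u.count e = 0 := by omega
            have := hc e
            rw [h0] at this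
            omega
          have := factor (s := s) (t := t) (hst.trans hm) (List.count_pos_iff.1 (b 0))
            (List.count_pos_iff.1 (b 2))
          have := hpow' u hu
          omega
      have h11 : insert p (V τ₃) ⊆ V (h :: τ₃) := by
        intro c hc
        rcases Set.mem_insert_iff.1 hc with rfl | ⟨u, hu⟩
        · exact ⟨f, hf⟩
        · have hcp : c ≠ p := by
            rintro rfl
            exact h10 ⟨u, hu⟩
          exact ⟨u, D_head (hp c hcp) hu⟩
      have h12 := Set.ncard_le_ncard h11 (Set.toFinite _)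
      rw [Set.ncard_insert_of_notMem h10 (Set.toFinite _)] at h12
      simp only [List.length_cons]
      omega
  have h1 := (claim τ [] rfl).trans (hV τ)
  have h2 := D_length hB hτ
  have h3 : (wd n).length = n + n + n := by
    simp only [wd, List.length_append, List.length_replicate]
  rw [List.length_map, h3] at h2
  have h4 : B ^ τ.length ≤ B ^ (N + 1) := Nat.pow_le_pow_right hB0 (by omega)
  have h5 := Nat.mul_le_mul_right G.ax.length h4
  omega

end

/-! A system for the words -/

/-- Letters of the system. -/
inductive L5 : Type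
  | t (e : Fin 3) : L5
  | a : L5
  | b : L5

instance : Finite L5 := by
  let φ : L5 → Option (Option (Fin 3)) := fun v => match v with
    | .t e => some (some e)
    | .a => some none
    | .b => none
  refine Finite.of_injective φ ?_
  intro u v huv
  cases u <;> cases v <;> simp_all [φ]

/-- The images of the letters. -/
def img : Bool → L5 → List L5
  | _, .t e => [.t e]
  | true, .a => [.t 0, .a, .t 1]
  | true, .b => [.t 2, .b]
  | false, .a => []
  | false, .b => []

/-- A system that generates the words. -/
def sysL : Sys (Fin 3) where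
  S := L5
  finS := inferInstance
  H := Bool
  finH := inferInstance
  neH := ⟨true⟩
  tab := fun h c => {img h c}
  tabFinite := fun _ _ => Set.finite_singleton _
  tabNonempty := fun _ _ => Set.singleton_nonempty _
  ax := [.a, .b]
  axNonempty := by simp
  term := .t
  termInj := by
    intro u v h
    simpa using h

theorem flatMap_img_rep (h : Bool) (n : ℕ) (e : Fin 3) :
    (List.replicate n (L5.t e)).flatMap (img h) = List.replicate n (L5.t e) := by
  induction n with
  | zero => simp
  | succ n ih =>
    rw [List.replicate_succ, List.flatMap_cons, ih]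
    cases h <;> simp [img]

/-- The intermediate words. -/
def mid (n : ℕ) : List L5 :=
  List.replicate n (.t 0) ++ ([.a] ++ (List.replicate n (.t 1) ++
    (List.replicate n (.t 2) ++ [.b])))

theorem mid_true (n : ℕ) : (mid n).flatMap (img true) = mid (n + 1) := by
  unfold mid
  rw [List.flatMap_append, List.flatMap_append, List.flatMap_append, List.flatMap_append,
    flatMap_img_rep, flatMap_img_rep, flatMap_img_rep]
  simp only [List.flatMap_cons, List.flatMap_nil, img, List.append_nil]
  rw [List.replicate_succ' (n := n) (a := L5.t 0), List.replicate_succ (n := n) (a := L5.t 1),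
    List.replicate_succ' (n := n) (a := L5.t 2)]
  simp

theorem mid_false (n : ℕ) : (mid n).flatMap (img false) = (wd n).map L5.t := by
  unfold mid wd
  rw [List.flatMap_append, List.flatMap_append, List.flatMap_append, List.flatMap_append,
    flatMap_img_rep, flatMap_img_rep, flatMap_img_rep]
  simp [img]

theorem wd_img (h : Bool) (n : ℕ) : ((wd n).map L5.t).flatMap (img h) = (wd n).map L5.t := by
  unfold wd
  simp only [List.map_append, List.map_replicate, List.flatMap_append, flatMap_img_rep]

theorem sub_img (h : Bool) (y : List L5) :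
    Sub (fun c => ({img h c} : Set (List L5))) y (y.flatMap (img h)) :=
  Sub.ofDet (fun _ _ => rfl)

theorem sub_img' {h : Bool} {y y' : List L5} (hs : Sub (fun c => ({img h c} : Set (List L5))) y y') :
    y' = y.flatMap (img h) := hs.det (fun _ _ => rfl)

theorem sysL_reach (n : ℕ) : ReflTransGen (Step sysL) (mid 0) (mid n) := by
  induction n with
  | zero => exact ReflTransGen.refl
  | succ n ih =>
    have h := sub_img true (mid n)
    rw [mid_true] at h
    exact ih.tail ⟨true, h⟩

theorem sysL_inv {y : List L5} (hy : ReflTransGen (Step sysL) (mid 0) y) :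
    (∃ n, y = mid n) ∨ ∃ n, y = (wd n).map L5.t := by
  induction hy with
  | refl => exact Or.inl ⟨0, rfl⟩
  | @tail y y' _ h ih =>
    obtain ⟨h, hs⟩ := h
    have hy' := sub_img' (h := h) hs
    rcases ih with ⟨n, rfl⟩ | ⟨n, rfl⟩
    · cases h with
      | true => exact Or.inl ⟨n + 1, hy'.trans (mid_true n)⟩
      | false => exact Or.inr ⟨n, hy'.trans (mid_false n)⟩
    · exact Or.inr ⟨n, hy'.trans (wd_img h n)⟩

theorem sysL_lang : lang sysL = {w | ∃ n, w = wd n} := by
  ext w
  constructor
  · intro h
    rcases sysL_inv h with ⟨n, hn⟩ | ⟨n, hn⟩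
    · exfalso
      have h1 : L5.a ∈ mid n := by simp [mid]
      rw [← hn] at h1
      obtain ⟨e, _, he⟩ := List.mem_map.1 h1
      cases he
    · exact ⟨n, List.map_injective_iff.2 sysL.termInj hn⟩
  · rintro ⟨n, rfl⟩
    have h2 := sub_img false (mid n)
    rw [mid_false] at h2
    exact (sysL_reach n).tail ⟨false, h2⟩

end Pool.Agent.N613.ET2
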