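import Pool.Agent.N613.ET2.Build
import Pool.Agent.N613.ET.Sound

namespace Pool.Agent.N613.ET2

open Relation Classical Pool.Agent.N613.ET

noncomputable section

section rw
variable {H S : Type}

theorem rwt_p {p g : Lt H S} {A : Set (List (Lt H S))} : rwt p A g p = A := by simp [rwt]

theorem rwt_g {p g : Lt H S} {A : Set (List (Lt H S))} (h : p ≠ g) : rwt p A g g = {[.d]} := by
  simp [rwt, h.symm]

theorem rwt_o {p g l : Lt H S} {A : Set (List (Lt H S))} (h1 : l ≠ p) (h2 : l ≠ g) :
    rwt p A g l = {[l]} := by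
  simp [rwt, h1, h2]

/-- If the guard is present, the dead letter appears. -/
theorem f1 {p g : Lt H S} {A : Set (List (Lt H S))} {W W' : List (Lt H S)} (h : p ≠ g)
    (hs : Sub (rwt p A g) W W') (hg : g ∈ W) : Lt.d ∈ W' := hs.mem hg (rwt_g h)

theorem f2 {p g l : Lt H S} {A : Set (List (Lt H S))} {W W' : List (Lt H S)}
    (hs : Sub (rwt p A g) W W') (hl : l ∈ W) (h1 : l ≠ p) (h2 : l ≠ g) : l ∈ W' :=
  hs.mem hl (rwt_o h1 h2)

/-- If `p` is present, then all letters of some right hand side appear. -/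
theorem f3 {p g : Lt H S} {A : Set (List (Lt H S))} {W W' : List (Lt H S)}
    (hs : Sub (rwt p A g) W W') (hp : p ∈ W) : ∃ u ∈ A, ∀ l ∈ u, l ∈ W' := by
  induction hs with
  | nil => simp at hp
  | @cons c u x y hu _ ih =>
    rcases List.mem_cons.1 hp with rfl | hp
    · rw [rwt_p] at hu
      exact ⟨u, hu, fun l hl => by simp [hl]⟩
    · obtain ⟨v, hv, hh⟩ := ih hp
      exact ⟨v, hv, fun l hl => by simp [hh l hl]⟩

/-- If both active letters are absent, nothing changes. -/
theorem f4 {p g : Lt H S} {A : Set (List (Lt H S))} {W W' : List (Lt H S)}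
    (hs : Sub (rwt p A g) W W') (hp : p ∉ W) (hg : g ∉ W) : W' = W := by
  have := hs.det (g := fun l => [l]) (fun c hc => rwt_o (by rintro rfl; exact hp hc)
    (by rintro rfl; exact hg hc))
  simpa using this

end rw

section
variable {H S : Type}

/-- A trap: a set of letters, none of them final, which cannot be left. -/
structure Trap (Z : Set (Lt H S)) : Prop where
  nonempty : Z.Nonempty
  noz : ∀ l ∈ Z, ∀ c, l ≠ .z c
  closed : ∀ p k g, Ok p k g → p ∈ Z → g ∈ Z

/-- A dead sentential form. -/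
def Dead (W : List (Lt H S)) : Prop := .d ∈ W ∨ ∃ Z : Set (Lt H S), Trap Z ∧ ∀ l ∈ Z, l ∈ W

def clkZ : Set (Lt H S) := {l | ∃ v, l = .clk v}

def sx (c : S) : Set (Lt H S) := {l | l = .x c ∨ l = .gx c ∨ l = .oe c ∨ ∃ h, l = .oa h c}

def sw (c : S) : Set (Lt H S) := {l | l = .w c ∨ l = .gw c ∨ l = .ob c}

theorem clkZ_trap : Trap (clkZ : Set (Lt H S)) where
  nonempty := ⟨.clk .q, .q, rfl⟩
  noz := by rintro l ⟨v, rfl⟩ c; simp
  closed := by
    rintro p k g h ⟨v, rfl⟩
    cases h with
    | mv u v h => exact ⟨u, rfl⟩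
    | kc v h => exact ⟨.fin, rfl⟩

theorem sx_trap (c : S) : Trap (sx c : Set (Lt H S)) where
  nonempty := ⟨.x c, Or.inl rfl⟩
  noz := by rintro l (rfl | rfl | rfl | ⟨h, rfl⟩) c' <;> simp
  closed := by
    rintro p k g h (rfl | rfl | rfl | ⟨h', rfl⟩) <;> cases h <;> simp [sx]

theorem sw_trap (c : S) : Trap (sw c : Set (Lt H S)) where
  nonempty := ⟨.w c, Or.inl rfl⟩
  noz := by rintro l (rfl | rfl | rfl) c' <;> simp
  closed := by
    rintro p k g h (rfl | rfl | rfl) <;> cases h <;> simp [sw]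

theorem Ok.ned {p g : Lt H S} {k : Act H S} (h : Ok p k g) : Lt.d ≠ p ∧ Lt.d ≠ g := by
  cases h <;> simp

theorem Dead.step {W W' : List (Lt H S)} {p g : Lt H S} {k : Act H S} {A : Set (List (Lt H S))}
    (hk : Ok p k g) (hs : Sub (rwt p A g) W W') (hd : Dead W) : Dead W' := by
  rcases hd with hd | ⟨Z, hZ, hW⟩
  · exact Or.inl (f2 hs hd hk.ned.1 hk.ned.2)
  · by_cases hg : g ∈ W
    · exact Or.inl (f1 hk.ne hs hg)
    · right
      refine ⟨Z, hZ, fun l hl => f2 hs (hW l hl) ?_ ?_⟩
      · rintro rfl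
        exact hg (hW _ (hZ.closed _ _ _ hk hl))
      · rintro rfl
        exact hg (hW _ hl)

/-- The letters other than the carriers. -/
def NC : Lt H S → Prop
  | .x _ => False
  | .w _ => False
  | .z _ => False
  | _ => True

/-- How the carriers represent the word `y`. -/
def Rel (tab : H → S → Set (List S)) : Clk H → List S → List (Lt H S) → Prop
  | .q, y, C => C = y.map .x
  | .p h, y, C => ∃ (P : Set S) (zs : List (S × List S)), (∀ p ∈ zs, p.2 ∈ tab h p.1) ∧
      y = zs.map Prod.fst ∧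
      C = zs.flatMap (fun p => if p.1 ∈ P then p.2.map Lt.w else [Lt.x p.1])
  | .r, y, C => C = y.map .w
  | .s, y, C => ∃ P : Set S, C = y.map (fun c => if c ∈ P then .x c else .w c)
  | .e, y, C => ∃ P : Set S, C = y.map (fun c => if c ∈ P then .z c else .x c)
  | .fin, _, _ => False

theorem Rel.car {tab : H → S → Set (List S)} {v : Clk H} {y : List S} {C : List (Lt H S)}
    (h : Rel tab v y C) : ∀ l ∈ C, ¬ NC l := by
  intro l hl
  cases v with
  | q =>
    have h : C = y.map .x := h
    rw [h] at hl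
    obtain ⟨a, _, rfl⟩ := List.mem_map.1 hl
    simp [NC]
  | p h' =>
    obtain ⟨P, zs, _, _, h3⟩ := h
    rw [h3] at hl
    obtain ⟨a, _, ha⟩ := List.mem_flatMap.1 hl
    split_ifs at ha
    · obtain ⟨b, _, rfl⟩ := List.mem_map.1 ha
      simp [NC]
    · simp only [List.mem_singleton] at ha
      rw [ha]; simp [NC]
  | r =>
    have h : C = y.map .w := h
    rw [h] at hl
    obtain ⟨a, _, rfl⟩ := List.mem_map.1 hl
    simp [NC]
  | s =>
    obtain ⟨P, h⟩ := h
    rw [h] at hl
    obtain ⟨a, _, rfl⟩ := List.mem_map.1 hl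
    split_ifs <;> simp [NC]
  | e =>
    obtain ⟨P, h⟩ := h
    rw [h] at hl
    obtain ⟨a, _, rfl⟩ := List.mem_map.1 hl
    split_ifs <;> simp [NC]
  | fin => exact h.elim

variable [Finite H] [Finite S]

/-- The invariant. -/
def Inv (tab : H → S → Set (List S)) (R : List S → Prop) (W : List (Lt H S)) : Prop :=
  Dead W ∨
  (∃ (v : Clk H) (y : List S) (C K : List (Lt H S)), W = C ++ K ∧ v ≠ .fin ∧ R y ∧ Rel tab v y C ∧
    (∀ l ∈ K, NC l) ∧ ∀ l, Ctr l → ¬ hole v l → l ∈ K) ∨
  (∃ (y : List S) (K : List (Lt H S)), W = y.map .z ++ K ∧ R y ∧ ∀ l ∈ K, NC l)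

theorem NC_of_Ctr {l : Lt H S} (h : Ctr l) : NC l := by
  cases l <;> simp_all [Ctr, NC]

/-- Words of the right hand sides of control letters contain no carriers. -/
theorem words_NC {tab : H → S → Set (List S)} {p g : Lt H S} {k : Act H S} (hk : Ok p k g)
    (hp : NC p) : ∀ u ∈ words tab k, ∀ l ∈ u, NC l := by
  intro u hu l hl
  cases hk with
  | aa h c => exact hp.elim
  | ab c => exact hp.elim
  | ae c => exact hp.elim
  | kc v h =>
    simp only [words, Set.mem_singleton_iff] at hu
    rw [hu] at hl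
    simp at hl
  | kgx c =>
    simp only [words, Set.mem_singleton_iff] at hu
    rw [hu, mem_clkL] at hl
    obtain ⟨v, _, rfl⟩ := hl
    simp [NC]
  | koa h c =>
    simp only [words, Set.mem_singleton_iff] at hu
    rw [hu, mem_clkL] at hl
    obtain ⟨v, _, rfl⟩ := hl
    simp [NC]
  | koe c =>
    simp only [words, Set.mem_singleton_iff] at hu
    rw [hu, mem_clkL] at hl
    obtain ⟨v, _, rfl⟩ := hl
    simp [NC]
  | kgw c =>
    simp only [words, Set.mem_singleton_iff] at hu
    rw [hu, mem_clkL] at hl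
    obtain ⟨v, _, rfl⟩ := hl
    simp [NC]
  | kob c =>
    simp only [words, Set.mem_singleton_iff] at hu
    rw [hu, mem_clkL] at hl
    obtain ⟨v, _, rfl⟩ := hl
    simp [NC]
  | _ =>
    simp only [words, Set.mem_singleton_iff] at hu
    rw [hu, mem_fillL] at hl
    exact NC_of_Ctr hl.1

theorem sub_NC {tab : H → S → Set (List S)} {p g : Lt H S} {k : Act H S} (hk : Ok p k g)
    {K K' : List (Lt H S)} (hK : ∀ l ∈ K, NC l) (hs : Sub (rwt p (words tab k) g) K K') :
    ∀ l ∈ K', NC l := by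
  induction hs with
  | nil => simp
  | @cons c u x y hu _ ih =>
    intro l hl
    rcases List.mem_append.1 hl with hl | hl
    · simp only [rwt] at hu
      split_ifs at hu with h1 h2
      · exact words_NC hk (h1 ▸ hK c (by simp)) u hu l hl
      · simp only [Set.mem_singleton_iff] at hu
        rw [hu] at hl
        simp only [List.mem_singleton] at hl
        rw [hl]; simp [NC]
      · simp only [Set.mem_singleton_iff] at hu
        rw [hu] at hl
        simp only [List.mem_singleton] at hl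
        rw [hl]; exact hK c (by simp)
    · exact ih (fun l hl => hK l (by simp [hl])) l hl

theorem Ok.fill_cases {p g : Lt H S} {v : Clk H} (h : Ok p (.fill v) g) :
    (∃ u, Edge u v ∧ p = .clk v ∧ g = .clk u) ∨
    (NC p ∧ hole v p ∧ (∀ u, p ≠ .clk u) ∧ (∀ u, g ≠ .clk u)) := by
  cases h with
  | mv u v h => exact Or.inl ⟨u, h, rfl, rfl⟩
  | tx v c h => exact Or.inr ⟨by simp [NC], h, by simp, by simp⟩
  | tw v c h => exact Or.inr ⟨by simp [NC], h, by simp, by simp⟩
  | pa h c => exact Or.inr ⟨by simp [NC], by simp [hole], by simp, by simp⟩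
  | pb c => exact Or.inr ⟨by simp [NC], by simp [hole], by simp, by simp⟩
  | pe c => exact Or.inr ⟨by simp [NC], by simp [hole], by simp, by simp⟩

theorem dead_clk {W : List (Lt H S)} (h : ∀ u, Lt.clk u ∈ W) : Dead W :=
  Or.inr ⟨clkZ, clkZ_trap, by rintro l ⟨v, rfl⟩; exact h v⟩

theorem dead_sx {W : List (Lt H S)} {c : S} (h1 : Lt.x c ∈ W) (h2 : Lt.gx c ∈ W)
    (h3 : Lt.oe c ∈ W) (h4 : ∀ h, Lt.oa h c ∈ W) : Dead W := by
  refine Or.inr ⟨sx c, sx_trap c, ?_⟩
  rintro l (rfl | rfl | rfl | ⟨h, rfl⟩)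
  · exact h1
  · exact h2
  · exact h3
  · exact h4 h

theorem dead_sw {W : List (Lt H S)} {c : S} (h1 : Lt.w c ∈ W) (h2 : Lt.gw c ∈ W)
    (h3 : Lt.ob c ∈ W) : Dead W := by
  refine Or.inr ⟨sw c, sw_trap c, ?_⟩
  rintro l (rfl | rfl | rfl)
  · exact h1
  · exact h2
  · exact h3

/-- The moves of the clock preserve the invariant. -/
theorem live_mv {tab : H → S → Set (List S)} (ht : ∀ h c, (tab h c).Nonempty)
    {R : List S → Prop} (hR : ∀ z z' h, R z → Sub (tab h) z z' → R z')
    {v v' : Clk H} (hE : Edge v v') {y : List S} {C K : List (Lt H S)} (hy : R y)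
    (hC : Rel tab v y C) (hK : ∀ l ∈ K, NC l) (hf : ∀ l, Ctr l → ¬ hole v' l → l ∈ K) :
    Inv tab R (C ++ K) := by
  cases hE with
  | qp h =>
    have hC' : C = y.map .x := hC
    refine Or.inr (Or.inl ⟨.p h, y, C, K, rfl, by simp, hy, ?_, hK, hf⟩)
    refine ⟨∅, y.map (fun c => (c, (ht h c).choose)), ?_, ?_, ?_⟩
    · intro p hp
      obtain ⟨a, _, rfl⟩ := List.mem_map.1 hp
      exact (ht h a).choose_spec
    · simp [Function.comp_def]
    · rw [hC']
      clear hC hC' hy
      induction y with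
      | nil => simp
      | cons a z ih =>
        simp only [List.map_cons, List.flatMap_cons]
        rw [ih]
        simp
  | pr h =>
    obtain ⟨P, zs, h1, h2, h3⟩ := hC
    by_cases hx : ∃ c, Lt.x c ∈ C
    · obtain ⟨c, hc⟩ := hx
      refine Or.inl (dead_sx (c := c) (by simp [hc]) ?_ ?_ ?_)
      · exact List.mem_append.2 (Or.inr (hf _ (by simp [Ctr]) (by simp [hole])))
      · exact List.mem_append.2 (Or.inr (hf _ (by simp [Ctr]) (by simp [hole])))
      · exact fun h => List.mem_append.2 (Or.inr (hf _ (by simp [Ctr]) (by simp [hole])))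
    · refine Or.inr (Or.inl ⟨.r, zs.flatMap Prod.snd, C, K, rfl, by simp,
        hR y _ h hy (h2 ▸ Sub.ofPairs h1), ?_, hK, hf⟩)
      have hP : ∀ p ∈ zs, p.1 ∈ P := by
        intro p hp
        by_contra hh
        refine hx ⟨p.1, ?_⟩
        rw [h3]
        exact List.mem_flatMap.2 ⟨p, hp, by simp [hh]⟩
      show C = (zs.flatMap Prod.snd).map Lt.w
      rw [h3]
      clear h3 h2 h1 hx
      induction zs with
      | nil => simp
      | cons a zs ih =>
        have ha := hP a (by simp)
        rw [List.flatMap_cons, List.flatMap_cons, ih (fun p hp => hP p (by simp [hp]))]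
        simp [ha]
  | rs =>
    have hC : C = y.map .w := hC
    refine Or.inr (Or.inl ⟨.s, y, C, K, rfl, by simp, hy, ⟨∅, by rw [hC]; simp⟩, hK, hf⟩)
  | sq =>
    obtain ⟨P, hC⟩ := hC
    by_cases hx : ∃ c, Lt.w c ∈ C
    · obtain ⟨c, hc⟩ := hx
      refine Or.inl (dead_sw (c := c) (by simp [hc]) ?_ ?_)
      · exact List.mem_append.2 (Or.inr (hf _ (by simp [Ctr]) (by simp [hole])))
      · exact List.mem_append.2 (Or.inr (hf _ (by simp [Ctr]) (by simp [hole])))
    · refine Or.inr (Or.inl ⟨.q, y, C, K, rfl, by simp, hy, ?_, hK, hf⟩)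
      show C = y.map .x
      rw [hC]
      refine List.map_congr_left ?_
      intro a ha
      by_cases haP : a ∈ P
      · simp [haP]
      · exfalso
        refine hx ⟨a, ?_⟩
        rw [hC]
        exact List.mem_map.2 ⟨a, ha, by simp [haP]⟩
  | qe =>
    have hC : C = y.map .x := hC
    refine Or.inr (Or.inl ⟨.e, y, C, K, rfl, by simp, hy, ⟨∅, by rw [hC]; simp⟩, hK, hf⟩)
  | ef =>
    obtain ⟨P, hC⟩ := hC
    by_cases hx : ∃ c, Lt.x c ∈ C
    · obtain ⟨c, hc⟩ := hx
      refine Or.inl (dead_sx (c := c) (by simp [hc]) ?_ ?_ ?_)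
      · exact List.mem_append.2 (Or.inr (hf _ (by simp [Ctr]) (by simp [hole])))
      · exact List.mem_append.2 (Or.inr (hf _ (by simp [Ctr]) (by simp [hole])))
      · exact fun h => List.mem_append.2 (Or.inr (hf _ (by simp [Ctr]) (by simp [hole])))
    · refine Or.inr (Or.inr ⟨y, K, ?_, hy, hK⟩)
      have : C = y.map .z := by
        rw [hC]
        refine List.map_congr_left ?_
        intro a ha
        by_cases haP : a ∈ P
        · simp [haP]
        · exfalso
          refine hx ⟨a, ?_⟩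
          rw [hC]
          exact List.mem_map.2 ⟨a, ha, by simp [haP]⟩
      rw [this]

/-- The operations on the carriers preserve the relation. -/
theorem rel_aa {tab : H → S → Set (List S)} {h : H} {c : S} {y : List S} {C C' : List (Lt H S)}
    (hC : Rel tab (.p h) y C) (hs : Sub (rwt (.x c) (words tab (.sub h c)) (.oa h c)) C C') :
    Rel tab (.p h) y C' := by
  obtain ⟨P, zs, h1, h2, h3⟩ := hC
  suffices hh : ∃ zs' : List (S × List S), (∀ p ∈ zs', p.2 ∈ tab h p.1) ∧
      zs.map Prod.fst = zs'.map Prod.fst ∧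
      C' = zs'.flatMap (fun p => if p.1 ∈ insert c P then p.2.map Lt.w else [Lt.x p.1]) by
    obtain ⟨zs', e1, e2, e3⟩ := hh
    exact ⟨insert c P, zs', e1, by rw [h2, e2], by convert e3⟩
  subst h3
  clear h2
  induction zs generalizing C' with
  | nil =>
    rw [List.flatMap_nil] at hs
    cases hs
    exact ⟨[], by simp, by simp, by simp⟩
  | cons p zs ih =>
    rw [List.flatMap_cons] at hs
    obtain ⟨y₁, y₂, rfl, k1, k2⟩ := hs.split
    obtain ⟨zs', e1, e2, e3⟩ := ih (fun q hq => h1 q (by simp [hq])) k2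
    have hp := h1 p (by simp)
    have hloc : ∃ p' : S × List S, p'.2 ∈ tab h p'.1 ∧ p'.1 = p.1 ∧
        y₁ = if p'.1 ∈ insert c P then p'.2.map Lt.w else [Lt.x p'.1] := by
      by_cases hpP : p.1 ∈ P
      · simp only [hpP, if_true] at k1
        have := k1.detMap (φ' := Lt.w) (by
          intro a _
          simp [rwt])
        exact ⟨p, hp, rfl, by simp [hpP, this]⟩
      · simp only [hpP, if_false] at k1
        have k1 := k1.single
        by_cases hpc : p.1 = c
        · simp only [rwt, words, hpc, if_true, Set.mem_image] at k1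
          obtain ⟨u, hu, rfl⟩ := k1
          exact ⟨(p.1, u), by simpa [hpc] using hu, rfl, by simp [hpc]⟩
        · have : y₁ = [Lt.x p.1] := by simpa [rwt, hpc] using k1
          exact ⟨p, hp, rfl, by simp [hpc, hpP, this]⟩
    obtain ⟨p', g1, g2, g3⟩ := hloc
    refine ⟨p' :: zs', ?_, ?_, ?_⟩
    · intro q hq
      rcases List.mem_cons.1 hq with rfl | hq
      · exact g1
      · exact e1 q hq
    · simp [g2, e2]
    · rw [List.flatMap_cons, ← e3, ← g3]

theorem rel_ab {tab : H → S → Set (List S)} {c : S} {y : List S} {C C' : List (Lt H S)}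
    (hC : Rel tab .s y C) (hs : Sub (rwt (.w c) (words tab (.toX c)) (.ob c)) C C') :
    Rel tab .s y C' := by
  obtain ⟨P, hC⟩ := hC
  subst hC
  refine ⟨insert c P, hs.detMap ?_⟩
  intro a _
  by_cases haP : a ∈ P
  · simp [haP, rwt]
  · by_cases hac : a = c
    · simp [hac ▸ haP, hac, rwt, words]
    · simp [haP, hac, rwt]

theorem rel_ae {tab : H → S → Set (List S)} {c : S} {y : List S} {C C' : List (Lt H S)}
    (hC : Rel tab .e y C) (hs : Sub (rwt (.x c) (words tab (.toZ c)) (.oe c)) C C') :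
    Rel tab .e y C' := by
  obtain ⟨P, hC⟩ := hC
  subst hC
  refine ⟨insert c P, hs.detMap ?_⟩
  intro a _
  by_cases haP : a ∈ P
  · simp [haP, rwt]
  · by_cases hac : a = c
    · simp [hac ▸ haP, hac, rwt, words]
    · simp [haP, hac, rwt]

end

end

end Pool.Agent.N613.ET2
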