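import Pool.Agent.N613.ET2.Sound

namespace Pool.Agent.N613.ET2

open Relation Classical Pool.Agent.N613.ET

noncomputable section

section
variable {H S : Type} [Finite H] [Finite S]

/-- The live sentential forms in the state `v` of the clock. -/
def Live (tab : H → S → Set (List S)) (v : Clk H) (y : List S) (C K : List (Lt H S)) : Prop :=
  Rel tab v y C ∧ (∀ l ∈ K, NC l) ∧ ∀ l, Ctr l → ¬ hole v l → l ∈ K

theorem live_inv {tab : H → S → Set (List S)} {R : List S → Prop} {v : Clk H} {y : List S}
    {C K : List (Lt H S)} (hv : v ≠ .fin) (hy : R y) (h : Live tab v y C K) :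
    Inv tab R (C ++ K) :=
  Or.inr (Or.inl ⟨v, y, C, K, rfl, hv, hy, h.1, h.2.1, h.2.2⟩)

/-- A table that fills the control letters. -/
theorem step_fill {tab : H → S → Set (List S)} (ht : ∀ h c, (tab h c).Nonempty)
    {R : List S → Prop} (hR : ∀ z z' h, R z → Sub (tab h) z z' → R z')
    {v v' : Clk H} (hv : v ≠ .fin) {y : List S} {C K W' : List (Lt H S)} (hy : R y)
    (hL : Live tab v y C K) {p g : Lt H S} (hk : Ok p (.fill v') g)
    (hs : Sub (rwt p (words tab (.fill v')) g) (C ++ K) W') : Inv tab R W' := by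
  by_cases hg : g ∈ C ++ K
  · exact Or.inl (Or.inl (f1 hk.ne hs hg))
  have hgC : g ∉ C := fun h => hg (by simp [h])
  have hgK : g ∉ K := fun h => hg (by simp [h])
  have hpN : NC p := by cases hk <;> simp [NC]
  have hpC : p ∉ C := fun h => hL.1.car p h hpN
  rcases hk.fill_cases with ⟨u, hE, rfl, rfl⟩ | ⟨_, hhp, hp1, hg1⟩
  · -- a move of the clock
    have huv : u = v := by
      by_contra hh
      exact hgK (hL.2.2 _ (by simp [Ctr]) (by rw [hole_clk]; exact fun h => hh h.symm))
    subst huv
    obtain ⟨C', K', rfl, h1, h2⟩ := hs.split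
    have h3 : C' = C := f4 h1 hpC hgC
    subst h3
    have hpK : Lt.clk v' ∈ K := hL.2.2 _ (by simp [Ctr]) (by rw [hole_clk]; exact hE.ne)
    obtain ⟨w, hw, hw'⟩ := f3 h2 hpK
    simp only [words, Set.mem_singleton_iff] at hw
    subst hw
    exact live_mv ht hR hE hy hL.1 (sub_NC hk hL.2.1 h2)
      (fun l h4 h5 => hw' l ((mem_fillL v' l).2 ⟨h4, h5⟩))
  · by_cases hpK : p ∈ K
    swap
    · have : W' = C ++ K := f4 hs (by simp [hpC, hpK]) hg
      rw [this]
      exact live_inv hv hy hL
    obtain ⟨C', K', rfl, h1, h2⟩ := hs.split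
    have h3 : C' = C := f4 h1 hpC hgC
    subst h3
    obtain ⟨w, hw, hw'⟩ := f3 h2 hpK
    simp only [words, Set.mem_singleton_iff] at hw
    subst hw
    by_cases hvv : v = v'
    · subst hvv
      refine live_inv hv hy ⟨hL.1, sub_NC hk hL.2.1 h2, fun l h4 h5 => f2 h2 (hL.2.2 l h4 h5) ?_ ?_⟩
      · rintro rfl; exact h5 hhp
      · rintro rfl; exact hgK (hL.2.2 _ h4 h5)
    · refine Or.inl (dead_clk fun u => List.mem_append.2 (Or.inr ?_))
      by_cases hu : u = v'
      · subst hu
        refine f2 h2 (hL.2.2 _ (by simp [Ctr]) (by rw [hole_clk]; exact hvv)) ?_ ?_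
        · exact fun h => hp1 _ h.symm
        · exact fun h => hg1 _ h.symm
      · exact hw' _ ((mem_fillL v' _).2 ⟨by simp [Ctr], by rw [hole_clk]; exact fun h => hu h.symm⟩)

/-- A table that erases a gate. -/
theorem step_clks {tab : H → S → Set (List S)} {R : List S → Prop}
    {v : Clk H} (hv : v ≠ .fin) {y : List S} {C K W' : List (Lt H S)} (hy : R y)
    (hL : Live tab v y C K) {p g : Lt H S} (hk : Ok p .clks g)
    (hs : Sub (rwt p (words tab .clks) g) (C ++ K) W') : Inv tab R W' := by
  by_cases hg : g ∈ C ++ K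
  · exact Or.inl (Or.inl (f1 hk.ne hs hg))
  by_cases hp : p ∈ C ++ K
  swap
  · have : W' = C ++ K := f4 hs hp hg
    rw [this]
    exact live_inv hv hy hL
  obtain ⟨w, hw, hw'⟩ := f3 hs hp
  simp only [words, Set.mem_singleton_iff] at hw
  subst hw
  refine Or.inl (dead_clk fun u => ?_)
  by_cases hu : u = .fin
  · subst hu
    refine f2 hs (List.mem_append.2 (Or.inr (hL.2.2 _ (by simp [Ctr])
      (by rw [hole_clk]; exact hv)))) ?_ ?_
    · cases hk <;> simp
    · cases hk <;> simp
  · exact hw' _ ((mem_clkL _).2 ⟨u, hu, rfl⟩)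

/-- The invariant is preserved. -/
theorem Inv.step {tab : H → S → Set (List S)} (ht : ∀ h c, (tab h c).Nonempty)
    {R : List S → Prop} (hR : ∀ z z' h, R z → Sub (tab h) z z' → R z')
    {W W' : List (Lt H S)} (hI : Inv tab R W)
    {t : Lt H S × Act H S × Lt H S} (hs : Sub (ntab tab t) W W') : Inv tab R W' := by
  obtain ⟨p, k, g⟩ := t
  by_cases hk : Ok p k g
  swap
  · simp only [ntab, if_neg hk] at hs
    rw [sub_id hs]; exact hI
  simp only [ntab, if_pos hk] at hs
  rcases hI with hd | ⟨v, y, C, K, rfl, hv, hy, hC, hK, hf⟩ | ⟨y, K, rfl, hy, hK⟩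
  · exact Or.inl (hd.step hk hs)
  · have hL : Live tab v y C K := ⟨hC, hK, hf⟩
    cases k with
    | fill v' => exact step_fill ht hR hv hy hL hk hs
    | clks => exact step_clks hv hy hL hk hs
    | nil =>
      cases hk with
      | kc u hu =>
        refine Or.inl (Or.inl (f1 (by simpa using hu) hs (List.mem_append.2 (Or.inr (hf _ ?_ ?_)))))
        · simp [Ctr]
        · rw [hole_clk]; exact hv
    | sub h c =>
      have hne := hk.ne
      cases hk with
      | aa h c =>
        by_cases hg : Lt.oa h c ∈ C ++ K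
        · exact Or.inl (Or.inl (f1 hne hs hg))
        have hgK : Lt.oa h c ∉ K := fun h => hg (by simp [h])
        have hh : hole v (.oa h c : Lt H S) := by
          by_contra hh
          exact hgK (hf _ (by simp [Ctr]) hh)
        have hv' : v = .p h := by
          cases v <;> simp_all [hole]
        subst hv'
        obtain ⟨C', K', rfl, h1, h2⟩ := hs.split
        have h3 : K' = K := f4 h2 (fun hh => (hK _ hh).elim) hgK
        subst h3
        exact live_inv hv hy ⟨rel_aa hC h1, hK, hf⟩
    | toX c =>
      have hne := hk.ne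
      cases hk with
      | ab c =>
        by_cases hg : Lt.ob c ∈ C ++ K
        · exact Or.inl (Or.inl (f1 hne hs hg))
        have hgK : Lt.ob c ∉ K := fun h => hg (by simp [h])
        have hh : hole v (.ob c : Lt H S) := by
          by_contra hh
          exact hgK (hf _ (by simp [Ctr]) hh)
        have hv' : v = .s := by
          cases v <;> simp_all [hole]
        subst hv'
        obtain ⟨C', K', rfl, h1, h2⟩ := hs.split
        have h3 : K' = K := f4 h2 (fun hh => (hK _ hh).elim) hgK
        subst h3
        exact live_inv hv hy ⟨rel_ab hC h1, hK, hf⟩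
    | toZ c =>
      have hne := hk.ne
      cases hk with
      | ae c =>
        by_cases hg : Lt.oe c ∈ C ++ K
        · exact Or.inl (Or.inl (f1 hne hs hg))
        have hgK : Lt.oe c ∉ K := fun h => hg (by simp [h])
        have hh : hole v (.oe c : Lt H S) := by
          by_contra hh
          exact hgK (hf _ (by simp [Ctr]) hh)
        have hv' : v = .e := by
          cases v <;> simp_all [hole]
        subst hv'
        obtain ⟨C', K', rfl, h1, h2⟩ := hs.split
        have h3 : K' = K := f4 h2 (fun hh => (hK _ hh).elim) hgK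
        subst h3
        exact live_inv hv hy ⟨rel_ae hC h1, hK, hf⟩
  · obtain ⟨C', K', rfl, h1, h2⟩ := hs.split
    have h3 := h1.detMap (φ' := Lt.z) (by
      intro a _
      refine rwt_o ?_ ?_
      · cases hk <;> simp
      · cases hk <;> simp)
    exact Or.inr (Or.inr ⟨y, K', by rw [h3], hy, sub_NC hk hK h2⟩)

/-- A form made of final letters that satisfies the invariant represents a reachable word. -/
theorem Inv.final {tab : H → S → Set (List S)} {R : List S → Prop} {w : List S}
    (hI : Inv tab R (w.map Lt.z : List (Lt H S))) : R w := by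
  rcases hI with hd | ⟨v, y, C, K, hW, hv, hy, hC, hK, hf⟩ | ⟨y, K, hW, hy, hK⟩
  · exfalso
    rcases hd with hd | ⟨Z, hZ, hh⟩
    · obtain ⟨a, _, ha⟩ := List.mem_map.1 hd
      cases ha
    · obtain ⟨l, hl⟩ := hZ.nonempty
      obtain ⟨a, _, ha⟩ := List.mem_map.1 (hh l hl)
      exact hZ.noz l hl a ha.symm
  · exfalso
    have h1 : (Lt.clk .fin : Lt H S) ∈ (w.map Lt.z : List (Lt H S)) := by
      rw [hW]
      exact List.mem_append.2 (Or.inr (hf _ (by simp [Ctr]) (by rw [hole_clk]; exact hv)))
    obtain ⟨a, _, ha⟩ := List.mem_map.1 h1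
    cases ha
  · cases K with
    | nil =>
      rw [List.append_nil] at hW
      have : w = y := List.map_injective_iff.2 (fun a b hab => by
        simpa using hab) hW
      rw [this]; exact hy
    | cons a K =>
      exfalso
      have h1 : a ∈ (w.map Lt.z : List (Lt H S)) := by rw [hW]; simp
      obtain ⟨b, _, hb⟩ := List.mem_map.1 h1
      have := hK a (by simp)
      rw [← hb] at this
      exact this.elim

end

end

end Pool.Agent.N613.ET2
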